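import Pool.Agent.H211R2.MC.Rk

/-!
# `M(K₄)`-configurations and principal truncations
-/

set_option autoImplicit false

open Set Matroid

namespace Q163.K4

open H211.MC

variable {α : Type*}

/-- The three elements on the line `m`. -/
def L (x : Fin 4 → Fin 4 → α) (m : Fin 4) : Set α := {y | ∃ a, a ≠ m ∧ y = x m a}

/-- The three elements off the line `m`. -/
def P (x : Fin 4 → Fin 4 → α) (m : Fin 4) : Set α :=
  {y | ∃ a b, a ≠ b ∧ a ≠ m ∧ b ≠ m ∧ y = x a b}

/-- Four distinct indices. -/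
def D4 (i j k l : Fin 4) : Prop := i ≠ j ∧ i ≠ k ∧ i ≠ l ∧ j ≠ k ∧ j ≠ l ∧ k ≠ l

instance (i j k l : Fin 4) : Decidable (D4 i j k l) := by unfold D4; infer_instance

lemma D4.cover {i j k l : Fin 4} (h : D4 i j k l) (m : Fin 4) : m = i ∨ m = j ∨ m = k ∨ m = l := by
  revert i j k l m; decide

lemma exists_D4_of_ne {i j : Fin 4} (h : i ≠ j) : ∃ k l, D4 i j k l := by
  revert i j; decide

lemma exists_D4 (i : Fin 4) : ∃ j k l, D4 i j k l := by
  revert i; decide

lemma exists_D4_of_ne3 {i j k : Fin 4} (h1 : i ≠ j) (h2 : i ≠ k) (h3 : j ≠ k) : ∃ l, D4 i j k l := by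
  revert i j k; decide

lemma D4.p1 {i j k l : Fin 4} (h : D4 i j k l) : D4 j i k l := by
  revert i j k l; decide
lemma D4.p2 {i j k l : Fin 4} (h : D4 i j k l) : D4 i k j l := by
  revert i j k l; decide
lemma D4.p3 {i j k l : Fin 4} (h : D4 i j k l) : D4 i j l k := by
  revert i j k l; decide

lemma D4.kl {i j k l : Fin 4} (h : D4 i j k l) : D4 k l i j := by
  revert i j k l; decide

lemma L_eq {x : Fin 4 → Fin 4 → α} {i j k l : Fin 4} (h : D4 i j k l) :
    L x i = {x i j, x i k, x i l} := by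
  ext y
  constructor
  · rintro ⟨a, ha, rfl⟩
    rcases h.cover a with rfl | rfl | rfl | rfl
    · exact absurd rfl ha
    · simp
    · simp
    · simp
  · obtain ⟨h1, h2, h3, -, -, -⟩ := h
    rintro (rfl | rfl | rfl)
    · exact ⟨j, h1.symm, rfl⟩
    · exact ⟨k, h2.symm, rfl⟩
    · exact ⟨l, h3.symm, rfl⟩

lemma P_eq {x : Fin 4 → Fin 4 → α} (hs : ∀ a b, x a b = x b a) {i j k l : Fin 4}
    (h : D4 i j k l) : P x l = {x i j, x i k, x j k} := by
  ext y
  constructor
  · rintro ⟨a, b, hab, ha, hb, rfl⟩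
    rcases h.cover a with rfl | rfl | rfl | rfl <;> rcases h.cover b with rfl | rfl | rfl | rfl <;>
      first
        | exact absurd rfl hab
        | exact absurd rfl ha
        | exact absurd rfl hb
        | exact Or.inl rfl
        | exact Or.inr (Or.inl rfl)
        | exact Or.inr (Or.inr rfl)
        | exact Or.inl (hs _ _)
        | exact Or.inr (Or.inl (hs _ _))
        | exact Or.inr (Or.inr (hs _ _))
  · obtain ⟨h1, h2, h3, h4, h5, h6⟩ := h
    rintro (rfl | rfl | rfl)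
    · exact ⟨i, j, h1, h3, h5, rfl⟩
    · exact ⟨i, k, h2, h3, h6, rfl⟩
    · exact ⟨j, k, h4, h5, h6, rfl⟩

/-- An `M(K₄)`-configuration. -/
structure Conf (N : Matroid α) (x : Fin 4 → Fin 4 → α) : Prop where
  symm : ∀ a b, x a b = x b a
  mem : ∀ a b, a ≠ b → x a b ∈ N.E
  base : ∀ m, rk N (P x m) = 3
  line : ∀ m, rk N (L x m) ≤ 2

/-- Some contraction has an `M(K₄)`-configuration. -/
def HasK (M : Matroid α) : Prop := ∃ C ⊆ M.E, ∃ x, Conf (M ／ C) x

lemma HasK.of_conf {M : Matroid α} {x : Fin 4 → Fin 4 → α} (h : Conf M x) : HasK M :=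
  ⟨∅, empty_subset _, x, by rwa [contract_empty]⟩

section

variable {N : Matroid α} {x : Fin 4 → Fin 4 → α}

lemma P_sub (hm : ∀ a b, a ≠ b → x a b ∈ N.E) (m : Fin 4) : P x m ⊆ N.E := by
  rintro y ⟨a, b, hab, -, -, rfl⟩; exact hm a b hab

lemma L_sub (hm : ∀ a b, a ≠ b → x a b ∈ N.E) (m : Fin 4) : L x m ⊆ N.E := by
  rintro y ⟨a, ha, rfl⟩; exact hm m a ha.symm

lemma pair_rk [N.Finite] (hs : ∀ a b, x a b = x b a) (hP : ∀ m, rk N (P x m) = 3)
    {i j k : Fin 4} (h1 : i ≠ j) (h2 : i ≠ k) (h3 : j ≠ k) : rk N {x i j, x i k} = 2 := by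
  obtain ⟨l, h⟩ := exists_D4_of_ne3 h1 h2 h3
  have e1 := hP l
  have h' : D4 j k i l := h.p1.p2
  rw [P_eq hs h', show ({x j k, x j i, x k i} : Set α) = insert (x j k) {x i j, x i k} by
    rw [hs j i, hs k i]] at e1
  have e2 := rk_insert_le N (x j k) {x i j, x i k}
  have e3 := rk_le_ncard N (I := {x i j, x i k}) (by simp)
  have e4 := ncard_insert_le (x i j) {x i k}
  rw [ncard_singleton] at e4
  omega

lemma cl_eq [N.Finite] {A B : Set α} (hAB : A ⊆ N.closure B) (h : rk N B ≤ rk N A) :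
    N.closure A = N.closure B := by
  apply subset_antisymm
  · exact N.closure_subset_closure_of_subset_closure hAB
  · exact subset_closure_of_rk_le N hAB (N.closure_subset_ground B) (by rwa [rk_closure])

lemma good_line [N.Finite] (hs : ∀ a b, x a b = x b a) (hm : ∀ a b, a ≠ b → x a b ∈ N.E)
    (hP : ∀ m, rk N (P x m) = 3) {i j k : Fin 4} (hg : rk N (L x i) ≤ 2)
    (h1 : i ≠ j) (h2 : i ≠ k) (h3 : j ≠ k) : L x i ⊆ N.closure {x i j, x i k} := by
  have e1 := pair_rk hs hP h1 h2 h3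
  refine subset_closure_of_rk_le N ?_ (L_sub hm i) (by omega)
  rintro y (rfl | rfl)
  · exact ⟨j, h1.symm, rfl⟩
  · exact ⟨k, h2.symm, rfl⟩

lemma mem_L {i a : Fin 4} (h : i ≠ a) : x i a ∈ L x i := ⟨a, h.symm, rfl⟩

lemma mem_P {m a b : Fin 4} (h1 : a ≠ b) (h2 : a ≠ m) (h3 : b ≠ m) : x a b ∈ P x m :=
  ⟨a, b, h1, h2, h3, rfl⟩

lemma P_sub_LL (hs : ∀ a b, x a b = x b a) {i j k l : Fin 4} (h : D4 i j k l) :
    P x l ⊆ L x i ∪ L x j := by
  rw [P_eq hs h]
  obtain ⟨h1, h2, h3, h4, h5, h6⟩ := h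
  rintro y (rfl | rfl | rfl)
  · exact Or.inl (mem_L h1)
  · exact Or.inl (mem_L h2)
  · exact Or.inr (mem_L h4)

/-- Configurations in the contraction of one element. -/
lemma conf_contract [N.Finite] {f : α} (hf : f ∈ N.E) (hs : ∀ a b, x a b = x b a)
    (hm : ∀ a b, a ≠ b → x a b ∈ N.E)
    (hP : ∀ m, rk N (P x m) = 3) (hPf : ∀ m, f ∉ N.closure (P x m))
    (hL : ∀ m, rk N (insert f (L x m)) ≤ 3) : HasK N := by
  have hne : ∀ a b, a ≠ b → x a b ≠ f := by
    intro a b hab he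
    obtain ⟨k, l, h⟩ := exists_D4_of_ne hab
    obtain ⟨h1, h2, h3, h4, h5, h6⟩ := h
    apply hPf l
    rw [← he]
    exact N.subset_closure _ (P_sub hm l) (mem_P h1 h3 h5)
  have hrf : rk N {f} = 1 := by
    have e1 := rk_le_ncard N (I := {f}) (by simp)
    rw [ncard_singleton] at e1
    by_contra hc
    have e2 : rk N {f} = 0 := by omega
    apply hPf 0
    rw [mem_closure_iff_rk N hf]
    have e3 := rk_union_le N {f} (P x 0)
    rw [singleton_union] at e3
    have e4 := rk_mono N (subset_insert f (P x 0))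
    omega
  refine ⟨{f}, by simpa using hf, x, hs, ?_, ?_, ?_⟩
  · intro a b hab
    rw [contract_ground]
    exact ⟨hm a b hab, hne a b hab⟩
  · intro m
    have e1 := rk_contract N (X := {f}) (Y := P x m) (by simpa using hf) (by
      rintro y ⟨a, b, hab, -, -, rfl⟩
      exact ⟨hm a b hab, hne a b hab⟩)
    rw [union_singleton, rk_insert_of_notMem N hf (hPf m), hP m, hrf] at e1
    omega
  · intro m
    have e1 := rk_contract N (X := {f}) (Y := L x m) (by simpa using hf) (by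
      rintro y ⟨a, ha, rfl⟩
      exact ⟨hm m a ha.symm, hne m a ha.symm⟩)
    rw [union_singleton, hrf] at e1
    have := hL m
    omega

end

end Q163.K4
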