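import Pool.Agent.Q163.K4.Ops

/-!
# Duals and truncations
-/

set_option autoImplicit false

open Set Matroid

namespace Q163.K4

open H211.MC

variable {α : Type*}

/-- First element of the complementary pair. -/
def c1 (i j : Fin 4) : Fin 4 := ![![0, 2, 1, 1], ![2, 0, 0, 0], ![1, 0, 0, 0], ![1, 0, 0, 0]] i j

/-- Second element of the complementary pair. -/
def c2 (i j : Fin 4) : Fin 4 := ![![0, 3, 3, 2], ![3, 0, 3, 2], ![3, 3, 0, 1], ![2, 2, 1, 0]] i j

lemma c_spec : ∀ i j k l : Fin 4, D4 i j k l →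
    (c1 i j = k ∧ c2 i j = l) ∨ (c1 i j = l ∧ c2 i j = k) := by decide

lemma c_symm : ∀ i j : Fin 4, c1 i j = c1 j i ∧ c2 i j = c2 j i := by decide

/-- The complementary labelling. -/
def dl (x : Fin 4 → Fin 4 → α) (i j : Fin 4) : α := x (c1 i j) (c2 i j)

lemma dl_symm (x : Fin 4 → Fin 4 → α) (i j : Fin 4) : dl x i j = dl x j i := by
  unfold dl; rw [(c_symm i j).1, (c_symm i j).2]

lemma dl_eq {x : Fin 4 → Fin 4 → α} (hs : ∀ a b, x a b = x b a) {i j k l : Fin 4}
    (h : D4 i j k l) : dl x i j = x k l := by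
  unfold dl
  rcases c_spec i j k l h with ⟨h1, h2⟩ | ⟨h1, h2⟩
  · rw [h1, h2]
  · rw [h1, h2, hs]

lemma P_dl {x : Fin 4 → Fin 4 → α} (hs : ∀ a b, x a b = x b a) (m : Fin 4) :
    P (dl x) m = L x m := by
  ext y
  constructor
  · rintro ⟨a, b, h1, h2, h3, rfl⟩
    obtain ⟨c, h⟩ := exists_D4_of_ne3 h1 h2 h3
    rw [dl_eq hs h]
    exact mem_L h.2.2.2.2.2
  · rintro ⟨a, h1, rfl⟩
    obtain ⟨b, c, h⟩ := exists_D4_of_ne h1.symm
    rw [← dl_eq hs h.kl]
    exact mem_P h.2.2.2.2.2 h.2.1.symm h.2.2.1.symm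

lemma L_dl {x : Fin 4 → Fin 4 → α} (hs : ∀ a b, x a b = x b a) (m : Fin 4) :
    L (dl x) m = P x m := by
  ext y
  constructor
  · rintro ⟨a, h1, rfl⟩
    obtain ⟨b, c, h⟩ := exists_D4_of_ne h1.symm
    rw [dl_eq hs h]
    exact mem_P h.2.2.2.2.2 h.2.1.symm h.2.2.1.symm
  · rintro ⟨a, b, h1, h2, h3, rfl⟩
    obtain ⟨c, h⟩ := exists_D4_of_ne3 h1 h2 h3
    rw [← dl_eq hs h.kl]
    exact mem_L h.2.2.2.2.2

section

variable {N : Matroid α} {x : Fin 4 → Fin 4 → α}

lemma Conf.ne_of_ne [N.Finite] (h : Conf N x) {i j k : Fin 4} (h1 : i ≠ j) (h2 : i ≠ k)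
    (h3 : j ≠ k) : x i j ≠ x i k := by
  intro he
  have e1 := pair_rk h.symm h.base h1 h2 h3
  rw [he, pair_eq_singleton, h.single_rk h2] at e1
  omega

lemma Conf.ne_opp [N.Finite] (h : Conf N x) {i j k l : Fin 4} (hD : D4 i j k l) :
    x i j ≠ x k l := by
  intro he
  have e1 := h.line k
  have e2 := h.base l
  rw [P_eq h.symm hD, he] at e2
  rw [L_eq hD.kl] at e1
  have e3 : ({x k l, x i k, x j k} : Set α) = {x k l, x k i, x k j} := by
    rw [h.symm i k, h.symm j k]
  rw [e3] at e2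
  omega

/-- All six points. -/
def All (x : Fin 4 → Fin 4 → α) : Set α := {y | ∃ a b, a ≠ b ∧ y = x a b}

lemma All_eq (x : Fin 4 → Fin 4 → α) (hs : ∀ a b, x a b = x b a) (m : Fin 4) :
    All x = L x m ∪ P x m := by
  ext y
  constructor
  · rintro ⟨a, b, hab, rfl⟩
    by_cases ha : a = m
    · subst ha; exact Or.inl (mem_L hab)
    by_cases hb : b = m
    · subst hb; rw [hs]; exact Or.inl (mem_L hab.symm)
    exact Or.inr (mem_P hab ha hb)
  · rintro (⟨a, ha, rfl⟩ | ⟨a, b, hab, -, -, rfl⟩)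
    · exact ⟨m, a, ha.symm, rfl⟩
    · exact ⟨a, b, hab, rfl⟩

lemma Conf.disjoint_LP [N.Finite] (h : Conf N x) (m : Fin 4) : Disjoint (L x m) (P x m) := by
  rw [disjoint_left]
  rintro y ⟨a, ha, rfl⟩ ⟨b, c, hbc, hb, hc, he⟩
  by_cases hab : a = b
  · subst hab
    rw [h.symm m a] at he
    exact h.ne_of_ne ha hbc hc.symm he
  by_cases hac : a = c
  · subst hac
    rw [h.symm m a, h.symm b a] at he
    exact h.ne_of_ne ha hab hb.symm he
  · exact h.ne_opp ⟨ha.symm, hb.symm, hc.symm, hab, hac, hbc⟩ he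

lemma Conf.sub_closure [N.Finite] (h : Conf N x) (m : Fin 4) : All x ⊆ N.closure (P x m) := by
  rw [All_eq x h.symm m]
  refine union_subset ?_ (N.subset_closure _ (h.P_sub m))
  rintro y ⟨a, ha, rfl⟩
  obtain ⟨b, c, hD⟩ := exists_D4_of_ne ha
  obtain ⟨h1, h2, h3, h4, h5, h6⟩ := id hD
  rw [h.symm]
  refine N.closure_subset_closure ?_
    (good_line h.symm h.mem h.base (h.line a) h2 h3 h6 (mem_L h1))
  rintro y (rfl | rfl)
  · exact mem_P h2 h1 h4.symm
  · exact mem_P h3 h1 h5.symm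

lemma Conf.rk_all [N.Finite] (h : Conf N x) : rk N (All x) = 3 := by
  apply le_antisymm
  · have := rk_mono N (h.sub_closure 0)
    rwa [rk_closure, h.base] at this
  · rw [← h.base 0]
    apply rk_mono
    rw [All_eq x h.symm 0]
    exact subset_union_right

lemma Conf.ncard_P [N.Finite] (h : Conf N x) (m : Fin 4) : (P x m).ncard = 3 := by
  apply le_antisymm (ncard_P_le h.symm m)
  rw [← h.base m]
  exact rk_le_ncard N (finite_P h.symm m)

lemma Conf.ncard_L [N.Finite] (h : Conf N x) (m : Fin 4) : (L x m).ncard = 3 := by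
  obtain ⟨i, j, k, hD⟩ := exists_D4 m
  obtain ⟨h1, h2, h3, h4, h5, h6⟩ := id hD
  rw [L_eq hD, ncard_insert_of_notMem, ncard_insert_of_notMem, ncard_singleton]
  · rw [mem_singleton_iff]
    exact h.ne_of_ne h2 h3 h6
  · simp only [mem_insert_iff, mem_singleton_iff, not_or]
    exact ⟨h.ne_of_ne h1 h2 h4, h.ne_of_ne h1 h3 h5⟩

end

lemma rk_dual (M : Matroid α) [M.Finite] {X : Set α} (hX : X ⊆ M.E) :
    rk M✶ X + rk M M.E = rk M (M.E \ X) + X.ncard := by
  have h := M.eRk_dual_add_eRank X hX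
  rw [eRank_def, ← cast_rk, ← cast_rk, ← cast_rk, ← (M.ground_finite.subset hX).cast_ncard_eq] at h
  exact_mod_cast h

/-- Duals do not create `M(K₄)`-minors. -/
theorem HasK.of_dual {M : Matroid α} [M.Finite] (h : HasK M✶) : HasK M := by
  obtain ⟨C, hC, x, hx⟩ := h
  have hCM : C ⊆ M.E := by simpa using hC
  have hXE : All x ⊆ (M✶ ／ C).E := by
    rintro y ⟨a, b, hab, rfl⟩; exact hx.mem a b hab
  obtain ⟨D, hDdef⟩ : ∃ D, D = (M✶ ／ C).E \ All x := ⟨_, rfl⟩
  have hDE : D ⊆ M.E := by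
    rw [hDdef, contract_ground, dual_ground]
    exact sdiff_subset.trans sdiff_subset
  have hDC : Disjoint D C := by
    rw [hDdef, contract_ground, disjoint_left]
    intro z hz hzC
    exact hz.1.2 hzC
  obtain ⟨N, hN⟩ : ∃ N, N = (M✶ ／ C) ↾ All x := ⟨_, rfl⟩
  have hNfin : N.Finite := by
    rw [hN]
    exact ⟨(M✶ ／ C).ground_finite.subset hXE⟩
  have hND : N = (M✶ ／ C) ＼ D := by
    rw [hN, hDdef, delete_compl hXE]
  have hdual : N✶ = (M ／ D) ＼ C := by
    rw [hND, dual_contract_delete, dual_dual, contract_delete_comm M hDC]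
  have hNE : N.E = All x := by rw [hN]; rfl
  have hrN : ∀ Y ⊆ All x, rk N Y = rk (M✶ ／ C) Y := by
    intro Y hY
    rw [hN, rk_restrict _ hY]
  have hsymm := hx.symm
  have hLP : ∀ m, All x \ L x m = P x m := by
    intro m
    rw [All_eq x hsymm m, union_sdiff_left]
    exact (hx.disjoint_LP m).symm.sdiff_eq_left
  have hPL : ∀ m, All x \ P x m = L x m := by
    intro m
    rw [All_eq x hsymm m, union_sdiff_right]
    exact (hx.disjoint_LP m).sdiff_eq_left
  have hPs : ∀ m, P x m ⊆ All x := fun m => by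
    rw [All_eq x hsymm m]; exact subset_union_right
  have hLs : ∀ m, L x m ⊆ All x := fun m => by
    rw [All_eq x hsymm m]; exact subset_union_left
  have hrk : ∀ Y ⊆ All x, rk (M ／ D) Y = rk N✶ Y := by
    intro Y hY
    rw [hdual, rk_delete]
    intro z hz
    have h1 := hXE (hY hz)
    rw [contract_ground, dual_ground] at h1
    refine ⟨?_, h1.2⟩
    rw [contract_ground]
    refine ⟨h1.1, ?_⟩
    rw [hDdef]
    exact fun h => h.2 (hY hz)
  refine ⟨D, hDE, dl x, dl_symm x, ?_, ?_, ?_⟩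
  · intro a b hab
    obtain ⟨c, d, hD4⟩ := exists_D4_of_ne hab
    rw [dl_eq hsymm hD4]
    have h1 := hXE ⟨c, d, hD4.2.2.2.2.2, rfl⟩
    rw [contract_ground, dual_ground] at h1
    rw [contract_ground, hDdef]
    exact ⟨h1.1, fun h => h.2 ⟨c, d, hD4.2.2.2.2.2, rfl⟩⟩
  · intro m
    rw [P_dl hsymm, hrk _ (hLs m)]
    have h1 := rk_dual N (X := L x m) (by rw [hNE]; exact hLs m)
    rw [hNE, hrN _ Subset.rfl, hx.rk_all, hLP, hrN _ (hPs m), hx.base, hx.ncard_L] at h1
    omega
  · intro m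
    rw [L_dl hsymm, hrk _ (hPs m)]
    have h1 := rk_dual N (X := P x m) (by rw [hNE]; exact hPs m)
    have h2 := hx.line m
    rw [hNE, hrN _ Subset.rfl, hx.rk_all, hPL, hrN _ (hLs m), hx.ncard_P] at h1
    omega

/-- Truncations do not create `M(K₄)`-minors. -/
theorem HasK.of_truncation (k : ℕ) : ∀ (n : ℕ) (M N : Matroid α) [M.Finite],
    rk M M.E ≤ k + n → N.E = M.E → (∀ I, N.Indep I ↔ M.Indep I ∧ I.encard ≤ k) → HasK N →
    HasK M := by
  have base : ∀ (M N : Matroid α) [M.Finite], rk M M.E ≤ k → N.E = M.E →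
      (∀ I, N.Indep I ↔ M.Indep I ∧ I.encard ≤ k) → HasK N → HasK M := by
    intro M N _ hr hE hI h
    have : N = M := by
      refine ext_indep hE ?_
      intro I _
      rw [hI]
      refine ⟨fun h => h.1, fun h => ⟨h, ?_⟩⟩
      rw [← (M.ground_finite.subset h.subset_ground).cast_ncard_eq, ← rk_indep M h]
      exact_mod_cast (rk_le_ground M I).trans hr
    rwa [← this]
  intro n
  induction n with
  | zero => intro M N _ hr; exact base M N hr
  | succ n ih =>
    intro M N _ hr hE hI h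
    by_cases hk : rk M M.E ≤ k
    · exact base M N hk hE hI h
    · have hspan : ∀ I, M.Indep I → (M.E ⊆ M.closure I ↔ rk M M.E ≤ I.ncard) := by
        intro I hI
        constructor
        · intro hs
          have := rk_mono M hs
          rwa [rk_closure, rk_indep M hI] at this
        · intro hs
          rw [← rk_indep M hI] at hs
          exact subset_closure_of_rk_le M hI.subset_ground Subset.rfl hs
      have h0 : ¬ M.E ⊆ M.closure ∅ := by
        rw [hspan ∅ M.empty_indep]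
        simp only [ncard_empty]
        omega
      obtain ⟨T, hTE, hT⟩ := exists_ptrunc (Subset.refl M.E) h0
      have hTfin : T.Finite := finite_of_ground_eq hTE
      apply HasK.of_trunc (Subset.refl M.E) hTE hT
      apply ih T N
      · have := (rk_trunc hTE hT (Subset.refl M.E)).2 (by
          rw [closure_ground])
        rw [hTE]
        omega
      · rw [hE, hTE]
      · intro I
        rw [hI, hT]
        constructor
        · rintro ⟨h1, h2⟩
          refine ⟨⟨h1, ?_⟩, h2⟩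
          rw [hspan I h1]
          rw [← (M.ground_finite.subset h1.subset_ground).cast_ncard_eq] at h2
          have : I.ncard ≤ k := by exact_mod_cast h2
          omega
        · rintro ⟨⟨h1, h2⟩, h3⟩
          exact ⟨h1, h3⟩
      · exact h

end Q163.K4
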