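import Mathlib

/-!
# Acyclic edge sets of `K₄`
-/

set_option autoImplicit false

namespace Q163.K4

open SimpleGraph

/-- Four distinct indices. -/
def E4 : Finset (Sym2 (Fin 4)) := Finset.univ.filter (fun e => ¬ e.IsDiag)

/-- The triangle avoiding `m`. -/
def Tr (m : Fin 4) : Finset (Sym2 (Fin 4)) := Finset.univ.filter (fun e => ¬ e.IsDiag ∧ m ∉ e)

/-- The star at `m`. -/
def St (m : Fin 4) : Finset (Sym2 (Fin 4)) := Finset.univ.filter (fun e => ¬ e.IsDiag ∧ m ∈ e)

/-- Distinct. -/
def Di (i j k l : Fin 4) : Prop := i ≠ j ∧ i ≠ k ∧ i ≠ l ∧ j ≠ k ∧ j ≠ l ∧ k ≠ l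

instance (i j k l : Fin 4) : Decidable (Di i j k l) := by unfold Di; infer_instance

lemma tr_eq : ∀ i j k m : Fin 4, Di i j k m → Tr m = {s(i, j), s(j, k), s(k, i)} := by
  decide +kernel

lemma small_cover : ∀ F ∈ E4.powerset, F.card ≤ 3 → (∀ m, ¬ Tr m ⊆ F) →
    (∃ m, F ⊆ St m) ∨ ∃ i j k l, Di i j k l ∧ F ⊆ {s(i, j), s(j, k), s(k, l)} := by
  decide +kernel

lemma large_cycle : ∀ F ∈ E4.powerset, 4 ≤ F.card →
    (∃ m, Tr m ⊆ F) ∨ ∃ i j k l, Di i j k l ∧ {s(i, j), s(j, k), s(k, l), s(l, i)} ⊆ F := by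
  decide +kernel

lemma four_card : ∀ i j k l : Fin 4, Di i j k l →
    ({s(i, j), s(j, k), s(k, l), s(l, i)} : Finset (Sym2 (Fin 4))).card = 4 := by
  decide +kernel

lemma exists_Di3 : ∀ i j k : Fin 4, i ≠ j → i ≠ k → j ≠ k → ∃ l, Di i j k l := by
  decide

lemma exists_Di_last : ∀ m : Fin 4, ∃ i j k, Di i j k m := by
  decide

lemma not_acyclic3 {F : Set (Sym2 (Fin 4))} {i j k : Fin 4} (hij : i ≠ j) (hik : i ≠ k)
    (hjk : j ≠ k) (h1 : s(i, j) ∈ F) (h2 : s(j, k) ∈ F) (h3 : s(k, i) ∈ F) :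
    ¬ (fromEdgeSet F).IsAcyclic := by
  intro h
  refine isAcyclic_iff_free_cycleGraph.1 h 3 le_rfl ⟨⟨⟨![i, j, k], ?_⟩, ?_⟩⟩
  · intro a b hab
    have hne := hab.ne
    rw [fromEdgeSet_adj]
    fin_cases a <;> fin_cases b <;> first
      | exact absurd rfl hne
      | exact ⟨h1, hij⟩
      | exact ⟨h2, hjk⟩
      | exact ⟨h3, hik.symm⟩
      | exact ⟨by rw [Sym2.eq_swap]; exact h1, hij.symm⟩
      | exact ⟨by rw [Sym2.eq_swap]; exact h2, hjk.symm⟩
      | exact ⟨by rw [Sym2.eq_swap]; exact h3, hik⟩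
  · intro a b hab
    fin_cases a <;> fin_cases b <;> first
      | rfl
      | exact absurd hab hij
      | exact absurd hab hik
      | exact absurd hab hjk
      | exact absurd hab hij.symm
      | exact absurd hab hik.symm
      | exact absurd hab hjk.symm

lemma not_acyclic4 {F : Set (Sym2 (Fin 4))} {i j k l : Fin 4} (hD : Di i j k l)
    (h1 : s(i, j) ∈ F) (h2 : s(j, k) ∈ F) (h3 : s(k, l) ∈ F) (h4 : s(l, i) ∈ F) :
    ¬ (fromEdgeSet F).IsAcyclic := by
  obtain ⟨d1, d2, d3, d4, d5, d6⟩ := hD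
  intro h
  refine isAcyclic_iff_free_cycleGraph.1 h 4 (by norm_num) ⟨⟨⟨![i, j, k, l], ?_⟩, ?_⟩⟩
  · intro a b hab
    rw [fromEdgeSet_adj]
    have hcyc : a - b = 1 ∨ b - a = 1 := by
      simpa [cycleGraph_adj] using hab
    fin_cases a <;> fin_cases b <;> first
      | (exfalso; revert hcyc; decide)
      | exact ⟨h1, d1⟩
      | exact ⟨h2, d4⟩
      | exact ⟨h3, d6⟩
      | exact ⟨h4, d3.symm⟩
      | exact ⟨by rw [Sym2.eq_swap]; exact h1, d1.symm⟩
      | exact ⟨by rw [Sym2.eq_swap]; exact h2, d4.symm⟩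
      | exact ⟨by rw [Sym2.eq_swap]; exact h3, d6.symm⟩
      | exact ⟨by rw [Sym2.eq_swap]; exact h4, d3⟩
  · intro a b hab
    fin_cases a <;> fin_cases b <;> first
      | rfl
      | exact absurd hab d1
      | exact absurd hab d2
      | exact absurd hab d3
      | exact absurd hab d4
      | exact absurd hab d5
      | exact absurd hab d6
      | exact absurd hab d1.symm
      | exact absurd hab d2.symm
      | exact absurd hab d3.symm
      | exact absurd hab d4.symm
      | exact absurd hab d5.symm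
      | exact absurd hab d6.symm

/-- Acyclic edge sets of `K₄`. -/
theorem acyclic_iff (F : Finset (Sym2 (Fin 4))) (hF : F ⊆ E4) :
    (fromEdgeSet (F : Set (Sym2 (Fin 4)))).IsAcyclic ↔ F.card ≤ 3 ∧ ∀ m, ¬ Tr m ⊆ F := by
  have htr : ∀ m, Tr m ⊆ F → ¬ (fromEdgeSet (F : Set (Sym2 (Fin 4)))).IsAcyclic := by
    intro m hm
    obtain ⟨i, j, k, hD⟩ := exists_Di_last m
    rw [tr_eq i j k m hD] at hm
    obtain ⟨d1, d2, d3, d4, d5, d6⟩ := hD
    exact not_acyclic3 d1 d2 d4 (by exact_mod_cast hm (by simp)) (by exact_mod_cast hm (by simp))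
      (by exact_mod_cast hm (by simp))
  constructor
  · intro h
    refine ⟨?_, fun m hm => htr m hm h⟩
    by_contra hc
    rcases large_cycle F (Finset.mem_powerset.2 hF) (by omega) with ⟨m, hm⟩ | ⟨i, j, k, l, hD, hs⟩
    · exact htr m hm h
    · exact not_acyclic4 hD (by exact_mod_cast hs (by simp)) (by exact_mod_cast hs (by simp))
        (by exact_mod_cast hs (by simp)) (by exact_mod_cast hs (by simp)) h
  · rintro ⟨hc, hm⟩
    rw [isAcyclic_iff_free_cycleGraph]
    rintro n hn ⟨f⟩
    have hinj : Function.Injective f := f.injective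
    have hadj : ∀ a b, (cycleGraph n).Adj a b → s(f a, f b) ∈ F := by
      intro a b hab
      have := f.toHom.map_adj hab
      rw [fromEdgeSet_adj] at this
      exact_mod_cast this.1
    have hn4 : n ≤ 4 := by
      have := Fintype.card_le_of_injective f hinj
      simpa using this
    obtain rfl | rfl : n = 3 ∨ n = 4 := by omega
    · have e1 : (f 0 : Fin 4) ≠ f 1 := fun h => by have := hinj h; revert this; decide
      have e2 : (f 0 : Fin 4) ≠ f 2 := fun h => by have := hinj h; revert this; decide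
      have e3 : (f 1 : Fin 4) ≠ f 2 := fun h => by have := hinj h; revert this; decide
      obtain ⟨m, hD⟩ := exists_Di3 _ _ _ e1 e2 e3
      apply hm m
      rw [tr_eq _ _ _ m hD]
      intro e he
      simp only [Finset.mem_insert, Finset.mem_singleton] at he
      rcases he with rfl | rfl | rfl
      · exact hadj 0 1 (by rw [cycleGraph_adj]; decide)
      · exact hadj 1 2 (by rw [cycleGraph_adj]; decide)
      · exact hadj 2 0 (by rw [cycleGraph_adj]; decide)
    · have e1 : (f 0 : Fin 4) ≠ f 1 := fun h => by have := hinj h; revert this; decide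
      have e2 : (f 0 : Fin 4) ≠ f 2 := fun h => by have := hinj h; revert this; decide
      have e3 : (f 0 : Fin 4) ≠ f 3 := fun h => by have := hinj h; revert this; decide
      have e4 : (f 1 : Fin 4) ≠ f 2 := fun h => by have := hinj h; revert this; decide
      have e5 : (f 1 : Fin 4) ≠ f 3 := fun h => by have := hinj h; revert this; decide
      have e6 : (f 2 : Fin 4) ≠ f 3 := fun h => by have := hinj h; revert this; decide
      have h4 := four_card _ _ _ _ ⟨e1, e2, e3, e4, e5, e6⟩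
      have hsub : ({s(f 0, f 1), s(f 1, f 2), s(f 2, f 3), s(f 3, f 0)} :
          Finset (Sym2 (Fin 4))) ⊆ F := by
        intro e he
        simp only [Finset.mem_insert, Finset.mem_singleton] at he
        rcases he with rfl | rfl | rfl | rfl
        · exact hadj 0 1 (by rw [cycleGraph_adj]; decide)
        · exact hadj 1 2 (by rw [cycleGraph_adj]; decide)
        · exact hadj 2 3 (by rw [cycleGraph_adj]; decide)
        · exact hadj 3 0 (by rw [cycleGraph_adj]; decide)
      have := Finset.card_le_card hsub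
      omega

end Q163.K4
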