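import Pool.Agent.Q163.K4.Dual

/-!
# Induction by directed graphs
-/

set_option autoImplicit false

open Set Matroid

namespace Q163.K4

open H211.MC

/-- `I` is joined onto `J` by pairwise vertex-disjoint directed paths of the directed graph `Γ`:
the path from `x ∈ I` is `p x 0 = x, p x 1, …, p x (n x)`. -/
def Joined {V : Type*} (Γ : V → V → Prop) (I J : Set V) : Prop :=
  ∃ (n : V → ℕ) (p : V → ℕ → V),
    (∀ x ∈ I, p x 0 = x) ∧
    (∀ x ∈ I, ∀ i < n x, Γ (p x i) (p x (i + 1))) ∧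
    (∀ x ∈ I, ∀ y ∈ I, ∀ i ≤ n x, ∀ j ≤ n y, p x i = p y j → x = y ∧ i = j) ∧
    J = (fun x => p x (n x)) '' I

variable {V : Type*}

/-- The possible images of the vertex `u`. -/
def Fs (Γ : V → V → Prop) (E₀ : Set V) (u : V) : Set (V ⊕ V) :=
  {z | z = Sum.inl u ∨ (∃ v, Γ u v ∧ z = Sum.inl v) ∨ (u ∈ E₀ ∧ z = Sum.inr u)}

/-- The vertex part. -/
def nx (ψ : V → V ⊕ V) (u : V) : V := Sum.elim id id (ψ u)

lemma joined_of_map [Finite V] {Γ : V → V → Prop} {M₀ : Matroid V} {X : Set V} {ψ : V → V ⊕ V}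
    (hinj : Function.Injective ψ) (hF : ∀ u, ψ u ∈ Fs Γ M₀.E u)
    (hX : ∀ u, ψ u ∉ Sum.inl '' X) (hI : M₀.Indep (Sum.inr ⁻¹' range ψ)) :
    ∃ J, M₀.Indep J ∧ Joined Γ X J := by
  have hinl : ∀ u, ψ u ≠ Sum.inr u → ψ u = Sum.inl (nx ψ u) := by
    intro u hu
    rcases hF u with h | ⟨v, -, h⟩ | ⟨-, h⟩
    · unfold nx; rw [h]; rfl
    · unfold nx; rw [h]; rfl
    · exact absurd h hu
  have key : ∀ i j : ℕ, ∀ x ∈ X, ∀ y ∈ X,
      (∀ i' < i, ψ ((nx ψ)^[i'] x) = Sum.inl ((nx ψ)^[i' + 1] x)) →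
      (∀ j' < j, ψ ((nx ψ)^[j'] y) = Sum.inl ((nx ψ)^[j' + 1] y)) →
      (nx ψ)^[i] x = (nx ψ)^[j] y → x = y ∧ i = j := by
    intro i
    induction i with
    | zero =>
      intro j x hx y hy _ h2 he
      cases j with
      | zero => exact ⟨he, rfl⟩
      | succ j =>
        exfalso
        have := h2 j (Nat.lt_succ_self j)
        rw [← he] at this
        exact hX _ (by rw [this]; exact ⟨x, hx, rfl⟩)
    | succ i ih =>
      intro j x hx y hy h1 h2 he
      cases j with
      | zero =>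
        exfalso
        have := h1 i (Nat.lt_succ_self i)
        rw [he] at this
        exact hX _ (by rw [this]; exact ⟨y, hy, rfl⟩)
      | succ j =>
        have e1 := h1 i (Nat.lt_succ_self i)
        have e2 := h2 j (Nat.lt_succ_self j)
        rw [he, ← e2] at e1
        obtain ⟨a, b⟩ := ih j x hx y hy (fun i' hi' => h1 i' (by omega))
          (fun j' hj' => h2 j' (by omega)) (hinj e1)
        exact ⟨a, by omega⟩
  have hex : ∀ x ∈ X, ∃ i, ψ ((nx ψ)^[i] x) = Sum.inr ((nx ψ)^[i] x) := by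
    intro x hx
    by_contra hcon
    push Not at hcon
    have hall : ∀ i, ψ ((nx ψ)^[i] x) = Sum.inl ((nx ψ)^[i + 1] x) := by
      intro i
      rw [hinl _ (hcon i), Function.iterate_succ_apply']
    obtain ⟨i, j, hij, he⟩ := Finite.exists_ne_map_eq_of_infinite (fun i : ℕ => (nx ψ)^[i] x)
    exact hij (key i j x hx x hx (fun i' _ => hall i') (fun j' _ => hall j') he).2
  classical
  let n : V → ℕ := fun x => if h : ∃ i, ψ ((nx ψ)^[i] x) = Sum.inr ((nx ψ)^[i] x) then
    Nat.find h else 0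
  have hn1 : ∀ x ∈ X, ψ ((nx ψ)^[n x] x) = Sum.inr ((nx ψ)^[n x] x) := by
    intro x hx
    simp only [n, dif_pos (hex x hx)]
    exact Nat.find_spec (hex x hx)
  have hn2 : ∀ x ∈ X, ∀ i < n x, ψ ((nx ψ)^[i] x) = Sum.inl ((nx ψ)^[i + 1] x) := by
    intro x hx i hi
    simp only [n, dif_pos (hex x hx)] at hi
    rw [hinl _ (Nat.find_min (hex x hx) hi), Function.iterate_succ_apply']
  refine ⟨(fun x => (nx ψ)^[n x] x) '' X, ?_, n, fun x i => (nx ψ)^[i] x, fun x _ => rfl, ?_, ?_,
    rfl⟩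
  · apply hI.subset
    rintro _ ⟨x, hx, rfl⟩
    exact ⟨_, hn1 x hx⟩
  · intro x hx i hi
    have h1 := hn2 x hx i hi
    rcases hF ((nx ψ)^[i] x) with h | ⟨v, hv, h⟩ | ⟨-, h⟩
    · exfalso
      rw [h1] at h
      have h2 := key (i + 1) i x hx x hx (fun i' hi' => hn2 x hx i' (by omega))
        (fun i' hi' => hn2 x hx i' (by omega)) (Sum.inl_injective h)
      omega
    · rw [h1] at h
      show Γ ((nx ψ)^[i] x) ((nx ψ)^[i + 1] x)
      rw [Sum.inl_injective h]
      exact hv
    · rw [h1] at h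
      simp at h
  · intro x hx y hy i hi j hj he
    exact key i j x hx y hy (fun i' hi' => hn2 x hx i' (by omega))
      (fun j' hj' => hn2 y hy j' (by omega)) he

lemma map_of_joined {Γ : V → V → Prop} {M₀ : Matroid V} {X J : Set V}
    (hJ : M₀.Indep J) (h : Joined Γ X J) :
    ∃ ψ : V → V ⊕ V, Function.Injective ψ ∧ (∀ u, ψ u ∈ Fs Γ M₀.E u) ∧
      (∀ u, ψ u ∉ Sum.inl '' X) ∧ M₀.Indep (Sum.inr ⁻¹' range ψ) := by
  classical
  obtain ⟨n, p, h0, hΓ, hdis, hJeq⟩ := h
  have hex : ∀ u, ∃ z : V ⊕ V, (∀ x ∈ X, p x (n x) = u → z = Sum.inr u) ∧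
      (∀ x ∈ X, ∀ i < n x, p x i = u → z = Sum.inl (p x (i + 1))) ∧
      ((∀ x ∈ X, ∀ i ≤ n x, p x i ≠ u) → z = Sum.inl u) ∧
      ((∃ x ∈ X, p x (n x) = u) ∨ (∃ x ∈ X, ∃ i < n x, p x i = u) ∨
        (∀ x ∈ X, ∀ i ≤ n x, p x i ≠ u)) := by
    intro u
    by_cases h1 : ∃ x ∈ X, p x (n x) = u
    · obtain ⟨x, hx, hxu⟩ := h1
      refine ⟨Sum.inr u, fun _ _ _ => rfl, ?_, ?_, Or.inl ⟨x, hx, hxu⟩⟩
      · intro y hy i hi he
        have := hdis x hx y hy (n x) le_rfl i hi.le (hxu.trans he.symm)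
        obtain ⟨rfl, h3⟩ := this
        omega
      · intro hall
        exact absurd hxu (hall x hx (n x) le_rfl)
    by_cases h2 : ∃ x ∈ X, ∃ i < n x, p x i = u
    · obtain ⟨x, hx, i, hi, hxu⟩ := h2
      refine ⟨Sum.inl (p x (i + 1)), ?_, ?_, ?_, Or.inr (Or.inl ⟨x, hx, i, hi, hxu⟩)⟩
      · intro y hy hyu
        exact absurd ⟨y, hy, hyu⟩ h1
      · intro y hy j hj he
        obtain ⟨rfl, rfl⟩ := hdis x hx y hy i hi.le j hj.le (hxu.trans he.symm)
        rfl
      · intro hall
        exact absurd hxu (hall x hx i hi.le)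
    · refine ⟨Sum.inl u, ?_, ?_, fun _ => rfl, Or.inr (Or.inr ?_)⟩
      · intro y hy hyu
        exact absurd ⟨y, hy, hyu⟩ h1
      · intro y hy i hi he
        exact absurd ⟨y, hy, i, hi, he⟩ h2
      · intro x hx i hi he
        rcases hi.lt_or_eq with h3 | h3
        · exact h2 ⟨x, hx, i, h3, he⟩
        · subst h3; exact h1 ⟨x, hx, he⟩
  choose ψ p1 p2 p3 p4 using hex
  refine ⟨ψ, ?_, ?_, ?_, ?_⟩
  · intro u v huv
    rcases p4 u with ⟨x, hx, hu⟩ | ⟨x, hx, i, hi, hu⟩ | hu
    · rw [p1 u x hx hu] at huv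
      rcases p4 v with ⟨y, hy, hv⟩ | ⟨y, hy, j, hj, hv⟩ | hv
      · rw [p1 v y hy hv] at huv; exact Sum.inr_injective huv
      · rw [p2 v y hy j hj hv] at huv; simp at huv
      · rw [p3 v hv] at huv; simp at huv
    · rw [p2 u x hx i hi hu] at huv
      rcases p4 v with ⟨y, hy, hv⟩ | ⟨y, hy, j, hj, hv⟩ | hv
      · rw [p1 v y hy hv] at huv; simp at huv
      · rw [p2 v y hy j hj hv] at huv
        obtain ⟨rfl, h3⟩ := hdis x hx y hy (i + 1) hi (j + 1) hj (Sum.inl_injective huv)
        have : i = j := by omega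
        subst this
        rw [← hu, hv]
      · rw [p3 v hv] at huv
        exact absurd (Sum.inl_injective huv) (hv x hx (i + 1) hi)
    · rw [p3 u hu] at huv
      rcases p4 v with ⟨y, hy, hv⟩ | ⟨y, hy, j, hj, hv⟩ | hv
      · rw [p1 v y hy hv] at huv; simp at huv
      · rw [p2 v y hy j hj hv] at huv
        exact absurd (Sum.inl_injective huv).symm (hu y hy (j + 1) hj)
      · rw [p3 v hv] at huv; exact Sum.inl_injective huv
  · intro u
    rcases p4 u with ⟨x, hx, hu⟩ | ⟨x, hx, i, hi, hu⟩ | hu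
    · rw [p1 u x hx hu]
      refine Or.inr (Or.inr ⟨hJ.subset_ground ?_, rfl⟩)
      rw [hJeq]
      exact ⟨x, hx, hu⟩
    · rw [p2 u x hx i hi hu]
      exact Or.inr (Or.inl ⟨_, by rw [← hu]; exact hΓ x hx i hi, rfl⟩)
    · rw [p3 u hu]; exact Or.inl rfl
  · rintro u ⟨y, hy, he⟩
    rcases p4 u with ⟨x, hx, hu⟩ | ⟨x, hx, i, hi, hu⟩ | hu
    · rw [p1 u x hx hu] at he; simp at he
    · rw [p2 u x hx i hi hu] at he
      have h1 : p x (i + 1) = p y 0 := by rw [h0 y hy]; exact (Sum.inl_injective he).symm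
      have := (hdis x hx y hy (i + 1) hi 0 (Nat.zero_le _) h1).2
      omega
    · rw [p3 u hu] at he
      have := Sum.inl_injective he
      subst this
      exact hu y hy 0 (Nat.zero_le _) (h0 y hy)
  · apply hJ.subset
    rintro w ⟨u, hu⟩
    rcases p4 u with ⟨x, hx, hu'⟩ | ⟨x, hx, i, hi, hu'⟩ | hu'
    · rw [p1 u x hx hu'] at hu
      have := Sum.inr_injective hu
      subst this
      rw [hJeq]
      exact ⟨x, hx, hu'⟩
    · rw [p2 u x hx i hi hu'] at hu; simp at hu
    · rw [p3 u hu'] at hu; simp at hu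

/-- The start matroid: a free copy of the vertices and a copy of `M₀`. -/
noncomputable def B₀ (M₀ : Matroid V) : Matroid (V ⊕ V) := (freeOn (univ : Set V)).sum M₀

lemma B₀_indep (M₀ : Matroid V) (I : Set (V ⊕ V)) :
    (B₀ M₀).Indep I ↔ M₀.Indep (Sum.inr ⁻¹' I) := by
  simp [B₀]

lemma Fs_sub (Γ : V → V → Prop) (M₀ : Matroid V) (u : V) : Fs Γ M₀.E u ⊆ (B₀ M₀).E := by
  rintro z (rfl | ⟨v, -, rfl⟩ | ⟨h, rfl⟩)
  · simp [B₀]
  · simp [B₀]
  · simpa [B₀] using h

lemma finite_of_finite [Finite V] (M : Matroid V) : M.Finite := ⟨toFinite _⟩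

/-- The sequence of principal truncations. -/
lemma seq [Finite V] (Γ : V → V → Prop) (M₀ : Matroid V) (S : Finset V) :
    ∃ M : Matroid (V ⊕ V), M.E = (B₀ M₀).E ∧ (HasK M → HasK (B₀ M₀)) ∧
      ∀ I, M.Indep I ↔ ∃ ψ : V → V ⊕ V, InjOn ψ S ∧ (∀ u ∈ S, ψ u ∈ Fs Γ M₀.E u) ∧
        (∀ u ∈ S, ψ u ∉ I) ∧ (B₀ M₀).Indep (I ∪ ψ '' S) := by
  classical
  induction S using Finset.induction_on with
  | empty =>
    refine ⟨B₀ M₀, rfl, id, ?_⟩
    intro I
    simp
  | insert s S hs ih =>
    obtain ⟨M, hE, hK, hM⟩ := ih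
    have hfin : M.Finite := finite_of_finite M
    have hFE : Fs Γ M₀.E s ⊆ M.E := by rw [hE]; exact Fs_sub Γ M₀ s
    have hF0 : ¬ Fs Γ M₀.E s ⊆ M.closure ∅ := by
      intro h
      have h1 : M.Indep {Sum.inl s} := by
        rw [hM]
        refine ⟨Sum.inl, Sum.inl_injective.injOn, fun u _ => Or.inl rfl, ?_, ?_⟩
        · intro u hu he
          rw [mem_singleton_iff] at he
          rw [Sum.inl_injective he] at hu
          exact hs hu
        · rw [B₀_indep]
          have : Sum.inr ⁻¹' ({Sum.inl s} ∪ Sum.inl '' (S : Set V)) = (∅ : Set V) := by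
            ext z; simp
          rw [this]
          exact M₀.empty_indep
      have h2 := h (show Sum.inl s ∈ Fs Γ M₀.E s from Or.inl rfl)
      have h3 := h1.notMem_closure_sdiff_of_mem (mem_singleton _)
      rw [sdiff_self] at h3
      exact h3 h2
    obtain ⟨T, hTE, hT⟩ := exists_ptrunc hFE hF0
    refine ⟨T, hTE.trans hE, fun h => hK (HasK.of_trunc hFE hTE hT h), ?_⟩
    intro I
    rw [hT]
    constructor
    · rintro ⟨hI, hF⟩
      obtain ⟨w, hwF, hw⟩ := not_subset.1 hF
      have hwI : w ∉ I := fun h => hw (M.subset_closure _ hI.subset_ground h)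
      have h1 : M.Indep (insert w I) := by
        rw [hI.insert_indep_iff]; exact Or.inl ⟨hFE hwF, hw⟩
      obtain ⟨ψ, q1, q2, q3, q4⟩ := (hM _).1 h1
      have hupd : ∀ u ∈ S, Function.update ψ s w u = ψ u := by
        intro u hu
        refine Function.update_of_ne ?_ _ _
        rintro rfl
        exact hs hu
      have hups : Function.update ψ s w s = w := Function.update_self _ _ _
      refine ⟨Function.update ψ s w, ?_, ?_, ?_, ?_⟩
      · intro a ha b hb hab
        rw [Finset.coe_insert] at ha hb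
        rcases ha with rfl | ha <;> rcases hb with rfl | hb
        · rfl
        · rw [hups, hupd b hb] at hab
          exact absurd (Or.inl hab.symm) (q3 b hb)
        · rw [hups, hupd a ha] at hab
          exact absurd (Or.inl hab) (q3 a ha)
        · rw [hupd a ha, hupd b hb] at hab
          exact q1 ha hb hab
      · intro u hu
        rcases Finset.mem_insert.1 hu with rfl | hu
        · rw [hups]; exact hwF
        · rw [hupd u hu]; exact q2 u hu
      · intro u hu
        rcases Finset.mem_insert.1 hu with rfl | hu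
        · rw [hups]; exact hwI
        · rw [hupd u hu]; exact fun h => q3 u hu (Or.inr h)
      · have he : I ∪ Function.update ψ s w '' ((insert s S : Finset V) : Set V) =
            insert w I ∪ ψ '' S := by
          rw [Finset.coe_insert, image_insert_eq, hups]
          have : Function.update ψ s w '' (S : Set V) = ψ '' S := by
            apply image_congr
            exact fun u hu => hupd u hu
          rw [this]
          ext z; simp only [mem_union, mem_insert_iff]; tauto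
        rw [he]
        exact q4
    · rintro ⟨ψ, q1, q2, q3, q4⟩
      have hsS : s ∈ insert s S := Finset.mem_insert_self _ _
      have h1 : M.Indep (insert (ψ s) I) := by
        rw [hM]
        refine ⟨ψ, q1.mono (by simp), fun u hu => q2 u (Finset.mem_insert_of_mem hu), ?_, ?_⟩
        · intro u hu he
          rcases he with he | he
          · have := q1 (Finset.mem_coe.2 (Finset.mem_insert_of_mem hu)) (Finset.mem_coe.2 hsS) he
            exact hs (this ▸ hu)
          · exact q3 u (Finset.mem_insert_of_mem hu) he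
        · have he : insert (ψ s) I ∪ ψ '' S = I ∪ ψ '' ((insert s S : Finset V) : Set V) := by
            rw [Finset.coe_insert, image_insert_eq]
            ext z; simp only [mem_union, mem_insert_iff]; tauto
          rw [he]
          exact q4
      have hI : M.Indep I := h1.subset (subset_insert _ _)
      refine ⟨hI, fun hF => ?_⟩
      have h2 := hF (q2 s hsS)
      have h3 := h1.notMem_closure_sdiff_of_mem (mem_insert _ _)
      rw [insert_sdiff_self_of_notMem (q3 s hsS)] at h3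
      exact h3 h2

lemma not_hasK_free [Finite V] : ¬ HasK (freeOn (univ : Set V)) := by
  have hfin : (freeOn (univ : Set V)).Finite := finite_of_finite _
  rintro ⟨C, hC, x, hx⟩
  have hr : ∀ Y : Set V, rk (freeOn (univ : Set V)) Y = Y.ncard := by
    intro Y
    apply rk_indep
    simp
  have h1 := rk_contract (freeOn (univ : Set V)) (Y := L x 0) hC (hx.L_sub 0)
  rw [hr, hr, ncard_union_eq (by
    rw [disjoint_left]
    intro z hz hzC
    exact (hx.L_sub 0 hz).2 hzC) (toFinite _) (toFinite _), hx.ncard_L] at h1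
  have := hx.line 0
  omega

/-- Induction by a directed graph does not create `M(K₄)`-minors. -/
theorem HasK.of_induced [Finite V] {Γ : V → V → Prop} {M₀ N : Matroid V} {A : Set V}
    (hE : N.E = A)
    (hN : ∀ I, N.Indep I ↔ I ⊆ A ∧ ∃ J, M₀.Indep J ∧ Joined Γ I J) (h : HasK N) : HasK M₀ := by
  classical
  have : Fintype V := Fintype.ofFinite V
  obtain ⟨M, hME, hK, hM⟩ := seq Γ M₀ Finset.univ
  have hfM : M.Finite := finite_of_finite _
  have hfN : N.Finite := finite_of_finite _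
  have hf0 : M₀.Finite := finite_of_finite _
  have hfF : (freeOn (univ : Set V)).Finite := finite_of_finite _
  have hind : ∀ I, M.Indep (Sum.inl '' I) ↔ ∃ J, M₀.Indep J ∧ Joined Γ I J := by
    intro I
    rw [hM]
    have hpre : ∀ ψ : V → V ⊕ V, (Sum.inr ⁻¹' (Sum.inl '' I ∪ ψ '' (Finset.univ : Finset V)) : Set V)
        = Sum.inr ⁻¹' range ψ := by
      intro ψ
      ext z
      simp
    constructor
    · rintro ⟨ψ, q1, q2, q3, q4⟩
      rw [B₀_indep, hpre] at q4
      exact joined_of_map (fun a b hab => q1 (by simp) (by simp) hab)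
        (fun u => q2 u (Finset.mem_univ u)) (fun u => q3 u (Finset.mem_univ u)) q4
    · rintro ⟨J, hJ, hj⟩
      obtain ⟨ψ, q1, q2, q3, q4⟩ := map_of_joined hJ hj
      refine ⟨ψ, q1.injOn, fun u _ => q2 u, fun u _ => q3 u, ?_⟩
      rw [B₀_indep, hpre]
      exact q4
  have hNeq : N = (M.comap Sum.inl) ↾ A := by
    refine ext_indep (by rw [hE]; rfl) ?_
    intro I _
    rw [hN, restrict_indep_iff, comap_indep_iff, hind]
    constructor
    · rintro ⟨a, b⟩; exact ⟨⟨b, Sum.inl_injective.injOn⟩, a⟩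
    · rintro ⟨⟨b, _⟩, a⟩; exact ⟨a, b⟩
  have hKM : HasK M := by
    refine HasK.of_emb (M := M) (N := N) Sum.inl Sum.inl_injective.injOn ?_ ?_ h
    · rw [hME]
      rintro _ ⟨u, _, rfl⟩
      simp [B₀]
    · intro Y hY
      rw [hE] at hY
      rw [hNeq, rk_restrict _ hY]
      unfold rk
      rw [eRk_comap]
  rcases HasK.of_sum (M := freeOn (univ : Set V)) (N := M₀) (hK hKM) with h | h
  · exact absurd h not_hasK_free
  · exact h

end Q163.K4
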