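import Pool.Agent.Q163.K4.Induce
import Pool.Agent.Q163.K4.Graph

/-!
# The matroid `M(K₄)` and its minors
-/

set_option autoImplicit false

open Set Matroid

namespace Q163.K4

open H211.MC

variable {α : Type*}

/-- `M` is isomorphic to `M(K₄)`, the cycle matroid of the complete graph on four vertices: there
is a bijection from the edges of `K₄` to the elements of `M` for which a set of edges is
independent if and only if it is acyclic. -/
def IsMK4 (M : Matroid α) : Prop :=
  ∃ φ : Sym2 (Fin 4) → α, BijOn φ (⊤ : SimpleGraph (Fin 4)).edgeSet M.E ∧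
    ∀ F ⊆ (⊤ : SimpleGraph (Fin 4)).edgeSet,
      (M.Indep (φ '' F) ↔ (SimpleGraph.fromEdgeSet F).IsAcyclic)

lemma edge_top : (⊤ : SimpleGraph (Fin 4)).edgeSet = (E4 : Set (Sym2 (Fin 4))) := by
  ext e
  simp [E4, SimpleGraph.edgeSet_top]

lemma St_sub : ∀ m, St m ⊆ E4 := by decide
lemma Tr_sub : ∀ m, Tr m ⊆ E4 := by decide
lemma St_card : ∀ m, (St m).card = 3 := by decide
lemma Tr_card : ∀ m, (Tr m).card = 3 := by decide
lemma Tr_not_sub_St : ∀ m n, ¬ Tr n ⊆ St m := by decide

lemma L_image (φ : Sym2 (Fin 4) → α) (m : Fin 4) :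
    L (fun a b => φ s(a, b)) m = φ '' (St m : Set (Sym2 (Fin 4))) := by
  ext y
  constructor
  · rintro ⟨a, ha, rfl⟩
    exact ⟨s(m, a), by simp [St, ha.symm], rfl⟩
  · rintro ⟨e, he, rfl⟩
    simp only [St, Finset.coe_filter, Finset.mem_univ, true_and, mem_ofPred_eq] at he
    obtain ⟨a, rfl⟩ := Sym2.mem_iff_exists.1 he.2
    refine ⟨a, ?_, rfl⟩
    intro h
    exact he.1 (by simp [h])

lemma P_image (φ : Sym2 (Fin 4) → α) (m : Fin 4) :
    P (fun a b => φ s(a, b)) m = φ '' (Tr m : Set (Sym2 (Fin 4))) := by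
  ext y
  constructor
  · rintro ⟨a, b, hab, ha, hb, rfl⟩
    exact ⟨s(a, b), by simp [Tr, hab, ha.symm, hb.symm], rfl⟩
  · rintro ⟨e, he, rfl⟩
    simp only [Tr, Finset.coe_filter, Finset.mem_univ, true_and, mem_ofPred_eq] at he
    induction e using Sym2.ind with
    | _ a b =>
      simp only [Sym2.mk_isDiag_iff, Sym2.mem_iff, not_or] at he
      exact ⟨a, b, he.1, fun h => he.2.1 h.symm, fun h => he.2.2 h.symm, rfl⟩

/-- `M(K₄)`-minors and configurations. -/
theorem hasK_of_minor {M N : Matroid α} [M.Finite] (hNM : N ≤m M) (hN : IsMK4 N) : HasK M := by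
  obtain ⟨C, D, hC, hD, hCD, rfl⟩ := hNM.exists_eq_contract_delete_disjoint
  obtain ⟨φ, hφ, hI⟩ := hN
  rw [edge_top] at hφ hI
  have hys : ∀ a b, (fun a b => φ s(a, b)) a b = (fun a b => φ s(a, b)) b a := by
    intro a b; simp only [Sym2.eq_swap]
  have hNE : (M ／ C ＼ D).E ⊆ (M ／ C).E := by
    rw [delete_ground]; exact sdiff_subset
  have hrk : ∀ F : Finset (Sym2 (Fin 4)), F ⊆ E4 →
      rk (M ／ C) (φ '' (F : Set (Sym2 (Fin 4)))) = rk (M ／ C ＼ D) (φ '' (F : Set (Sym2 (Fin 4)))) := by
    intro F hF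
    rw [rk_delete]
    rintro _ ⟨e, he, rfl⟩
    exact hφ.mapsTo (hF he)
  have hcard : ∀ F : Finset (Sym2 (Fin 4)), F ⊆ E4 →
      (φ '' (F : Set (Sym2 (Fin 4)))).ncard = F.card := by
    intro F hF
    rw [(hφ.injOn.mono (by exact_mod_cast hF)).ncard_image, ncard_coe_finset]
  refine ⟨C, hC, dl (fun a b => φ s(a, b)), dl_symm _, ?_, ?_, ?_⟩
  · intro a b hab
    obtain ⟨c, d, hD4⟩ := exists_D4_of_ne hab
    rw [dl_eq hys hD4]
    apply hNE
    apply hφ.mapsTo
    simp [E4, hD4.2.2.2.2.2]
  · intro m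
    rw [P_dl hys, L_image, hrk _ (St_sub m)]
    have h1 : (M ／ C ＼ D).Indep (φ '' (St m : Set (Sym2 (Fin 4)))) := by
      rw [hI _ (by exact_mod_cast St_sub m), acyclic_iff _ (St_sub m)]
      exact ⟨(St_card m).le, Tr_not_sub_St m⟩
    rw [rk_indep _ h1, hcard _ (St_sub m), St_card]
  · intro m
    rw [L_dl hys, P_image, hrk _ (Tr_sub m)]
    have h1 : ¬ (M ／ C ＼ D).Indep (φ '' (Tr m : Set (Sym2 (Fin 4)))) := by
      rw [hI _ (by exact_mod_cast Tr_sub m), acyclic_iff _ (Tr_sub m)]
      exact fun h => h.2 m subset_rfl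
    have h2 : φ '' (Tr m : Set (Sym2 (Fin 4))) ⊆ (M ／ C ＼ D).E := by
      rintro _ ⟨e, he, rfl⟩
      exact hφ.mapsTo (Tr_sub m he)
    rw [indep_iff_rk _ h2, hcard _ (Tr_sub m), Tr_card] at h1
    have h3 := rk_le_ncard (M ／ C ＼ D) ((Finset.finite_toSet (Tr m)).image φ)
    rw [hcard _ (Tr_sub m), Tr_card] at h3
    omega

lemma Conf.path_rk {N : Matroid α} {x : Fin 4 → Fin 4 → α} [N.Finite] (h : Conf N x)
    {i j k l : Fin 4} (hD : D4 i j k l) : rk N {x i j, x i l, x l k} = 3 := by
  obtain ⟨h1, h2, h3, h4, h5, h6⟩ := id hD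
  have hsub : ({x i j, x i l, x l k} : Set α) ⊆ N.E := by
    rintro y (rfl | rfl | rfl)
    · exact h.mem _ _ h1
    · exact h.mem _ _ h3
    · exact h.mem _ _ h6.symm
  apply le_antisymm
  · have e1 := rk_insert_le N (x i j) {x i l, x l k}
    have e2 := rk_insert_le N (x i l) {x l k}
    have e3 := rk_le_ncard N (I := {x l k}) (by simp)
    rw [ncard_singleton] at e3
    omega
  · have hP : P x k ⊆ N.closure {x i j, x i l, x l k} := by
      rw [P_eq h.symm hD.p3]
      rintro y (rfl | rfl | rfl)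
      · exact N.subset_closure _ hsub (by simp)
      · exact N.subset_closure _ hsub (by simp)
      · rw [h.symm j l]
        refine N.closure_subset_closure ?_
          (good_line h.symm h.mem h.base (h.line l) h3.symm h6.symm h2 (mem_L h5.symm))
        rw [h.symm l i]
        rintro y (rfl | rfl) <;> simp
    have := rk_mono N hP
    rwa [h.base, rk_closure] at this

/-- Configurations give `M(K₄)`-minors. -/
theorem minor_of_hasK {M : Matroid α} [M.Finite] (h : HasK M) : ∃ N, N ≤m M ∧ IsMK4 N := by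
  classical
  obtain ⟨C, hC, x, hx⟩ := h
  have hXE : All x ⊆ (M ／ C).E := by
    rintro y ⟨a, b, hab, rfl⟩; exact hx.mem a b hab
  refine ⟨(M ／ C) ↾ All x, ⟨C, (M ／ C).E \ All x, by rw [delete_compl hXE]⟩, ?_⟩
  let φ : Sym2 (Fin 4) → α := Sym2.lift ⟨dl x, dl_symm x⟩
  have hφ : ∀ a b, φ s(a, b) = dl x a b := fun a b => rfl
  have hinj : InjOn φ (E4 : Set (Sym2 (Fin 4))) := by
    intro e he f hf hef
    induction e using Sym2.ind with
    | _ a b =>
      induction f using Sym2.ind with
      | _ c d =>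
        have hab : a ≠ b := by simpa [E4] using he
        have hcd : c ≠ d := by simpa [E4] using hf
        rw [hφ, hφ] at hef
        obtain ⟨a', b', hD1⟩ := exists_D4_of_ne hab
        obtain ⟨c', d', hD2⟩ := exists_D4_of_ne hcd
        rw [dl_eq hx.symm hD1, dl_eq hx.symm hD2] at hef
        by_contra hne
        have hcases : s(a', b') = s(c', d') → s(a, b) = s(c, d) := by
          clear * - hD1 hD2
          revert hD1 hD2
          revert a b c d a' b' c' d'
          decide +kernel
        have hne' : s(a', b') ≠ s(c', d') := fun h => hne (hcases h)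
        have hab' : a' ≠ b' := hD1.2.2.2.2.2
        have hcd' : c' ≠ d' := hD2.2.2.2.2.2
        by_cases e1 : a' = c'
        · subst e1
          have e2 : b' ≠ d' := fun h => hne' (by rw [h])
          exact hx.ne_of_ne hab' hcd' e2 hef
        by_cases e2 : a' = d'
        · subst e2
          have e3 : b' ≠ c' := fun h => hne' (by rw [h, Sym2.eq_swap])
          rw [hx.symm c' a'] at hef
          exact hx.ne_of_ne hab' e1 e3 hef
        by_cases e3 : b' = c'
        · subst e3
          rw [hx.symm a' b'] at hef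
          exact hx.ne_of_ne hab'.symm hcd' e2 hef
        by_cases e4 : b' = d'
        · subst e4
          rw [hx.symm a' b', hx.symm c' b'] at hef
          exact hx.ne_of_ne hab'.symm e3 e1 hef
        exact hx.ne_opp ⟨hab', e1, e2, e3, e4, hcd'⟩ hef
  have hmaps : MapsTo φ (E4 : Set (Sym2 (Fin 4))) (All x) := by
    intro e he
    induction e using Sym2.ind with
    | _ a b =>
      have hab : a ≠ b := by simpa [E4] using he
      obtain ⟨a', b', hD1⟩ := exists_D4_of_ne hab
      rw [hφ, dl_eq hx.symm hD1]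
      exact ⟨a', b', hD1.2.2.2.2.2, rfl⟩
  refine ⟨φ, ?_, ?_⟩
  · rw [edge_top]
    refine ⟨hmaps, hinj, ?_⟩
    rintro _ ⟨a, b, hab, rfl⟩
    obtain ⟨a', b', hD1⟩ := exists_D4_of_ne hab
    refine ⟨s(a', b'), ?_, ?_⟩
    · simp [E4, hD1.2.2.2.2.2]
    · rw [hφ, dl_eq hx.symm hD1.kl]
  · intro F hF
    rw [edge_top] at hF
    obtain ⟨G, rfl⟩ : ∃ G : Finset (Sym2 (Fin 4)), (G : Set (Sym2 (Fin 4))) = F :=
      ⟨F.toFinset, by simp⟩
    have hG : G ⊆ E4 := by exact_mod_cast hF
    rw [acyclic_iff G hG, restrict_indep_iff]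
    have hsubAll : ∀ H : Finset (Sym2 (Fin 4)), H ⊆ E4 → φ '' (H : Set (Sym2 (Fin 4))) ⊆ All x := by
      rintro H hH _ ⟨e, he, rfl⟩
      exact hmaps (hH he)
    have hcard : ∀ H : Finset (Sym2 (Fin 4)), H ⊆ E4 →
        (φ '' (H : Set (Sym2 (Fin 4)))).ncard = H.card := by
      intro H hH
      rw [(hinj.mono (by exact_mod_cast hH)).ncard_image, ncard_coe_finset]
    have hdlfun : (fun a b => φ s(a, b)) = dl x := rfl
    constructor
    · rintro ⟨hI, -⟩
      refine ⟨?_, fun m hm => ?_⟩
      · have h1 := rk_indep _ hI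
        rw [hcard G hG] at h1
        have h2 := rk_mono (M ／ C) (hsubAll G hG)
        rw [hx.rk_all] at h2
        omega
      · have h1 : (M ／ C).Indep (φ '' (Tr m : Set (Sym2 (Fin 4)))) :=
          hI.subset (image_mono (by exact_mod_cast hm))
        have h2 := rk_indep _ h1
        rw [hcard _ (Tr_sub m), Tr_card, ← P_image, hdlfun, P_dl hx.symm] at h2
        have := hx.line m
        omega
    · rintro ⟨hc, hm⟩
      refine ⟨?_, hsubAll G hG⟩
      rcases small_cover G (Finset.mem_powerset.2 hG) hc hm with ⟨m, hGm⟩ | ⟨i, j, k, l, hD, hG2⟩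
      · have h1 : (M ／ C).Indep (φ '' (St m : Set (Sym2 (Fin 4)))) := by
          rw [indep_iff_rk _ ((hsubAll _ (St_sub m)).trans hXE), hcard _ (St_sub m), St_card,
            ← L_image, hdlfun, L_dl hx.symm, hx.base]
        exact h1.subset (image_mono (by exact_mod_cast hGm))
      · have hD' : D4 i j k l := hD
        have himg : φ '' (({s(i, j), s(j, k), s(k, l)} : Finset (Sym2 (Fin 4))) :
            Set (Sym2 (Fin 4))) = {x i j, x i l, x l k} := by
          push_cast
          rw [image_insert_eq, image_insert_eq, image_singleton, hφ, hφ, hφ, dl_eq hx.symm hD',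
            dl_eq hx.symm (show D4 j k i l from hD'.p1.p2), dl_eq hx.symm hD'.kl,
            hx.symm k l]
          ext z; simp; tauto
        have hs3 : ({s(i, j), s(j, k), s(k, l)} : Finset (Sym2 (Fin 4))) ⊆ E4 := by
          obtain ⟨h1, h2, h3, h4, h5, h6⟩ := hD
          intro e he
          simp only [Finset.mem_insert, Finset.mem_singleton] at he
          rcases he with rfl | rfl | rfl <;> simp [E4, h1, h4, h6]
        have hcard3 : ({s(i, j), s(j, k), s(k, l)} : Finset (Sym2 (Fin 4))).card ≤ 3 :=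
          Finset.card_le_three
        have h1 : (M ／ C).Indep (φ '' (({s(i, j), s(j, k), s(k, l)} : Finset (Sym2 (Fin 4))) :
            Set (Sym2 (Fin 4)))) := by
          rw [indep_iff_rk _ ((hsubAll _ hs3).trans hXE)]
          apply le_antisymm
          · exact rk_le_ncard _ ((Finset.finite_toSet _).image φ)
          · rw [hcard _ hs3, himg, hx.path_rk hD']
            exact hcard3
        exact h1.subset (image_mono (by exact_mod_cast hG2))

end Q163.K4
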