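import Pool.Agent.Q163.K4.PT

/-!
# Relabelling, direct sums, duals and truncations
-/

set_option autoImplicit false

open Set Matroid

namespace Q163.K4

open H211.MC

variable {α β : Type*}

lemma image_P (g : β → α) (x : Fin 4 → Fin 4 → β) (m : Fin 4) :
    P (fun a b => g (x a b)) m = g '' P x m := by
  ext y
  constructor
  · rintro ⟨a, b, h1, h2, h3, rfl⟩
    exact ⟨x a b, ⟨a, b, h1, h2, h3, rfl⟩, rfl⟩
  · rintro ⟨_, ⟨a, b, h1, h2, h3, rfl⟩, rfl⟩
    exact ⟨a, b, h1, h2, h3, rfl⟩

lemma image_L (g : β → α) (x : Fin 4 → Fin 4 → β) (m : Fin 4) :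
    L (fun a b => g (x a b)) m = g '' L x m := by
  ext y
  constructor
  · rintro ⟨a, h1, rfl⟩
    exact ⟨x m a, ⟨a, h1, rfl⟩, rfl⟩
  · rintro ⟨_, ⟨a, h1, rfl⟩, rfl⟩
    exact ⟨a, h1, rfl⟩

/-- A rank preserving embedding carries `M(K₄)`-minors. -/
lemma HasK.of_emb {M : Matroid α} {N : Matroid β} [M.Finite] [N.Finite] (g : β → α)
    (hg : InjOn g N.E) (hgE : g '' N.E ⊆ M.E) (hr : ∀ Y ⊆ N.E, rk N Y = rk M (g '' Y))
    (h : HasK N) : HasK M := by
  obtain ⟨C, hC, x, hx⟩ := h
  have hmem : ∀ a b, a ≠ b → g (x a b) ∈ (M ／ (g '' C)).E := by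
    intro a b hab
    have h1 := hx.mem a b hab
    rw [contract_ground] at h1 ⊢
    refine ⟨hgE (mem_image_of_mem g h1.1), ?_⟩
    rintro ⟨c, hc, he⟩
    rw [hg (hC hc) h1.1 he] at hc
    exact h1.2 hc
  have key : ∀ Y ⊆ (N ／ C).E, rk (M ／ (g '' C)) (g '' Y) = rk (N ／ C) Y := by
    intro Y hY
    have r1 := rk_contract N hC hY
    have r2 := rk_contract M (X := g '' C) (Y := g '' Y) ((image_mono hC).trans hgE) (by
      rintro _ ⟨y, hy, rfl⟩
      refine ⟨hgE (mem_image_of_mem g (hY hy).1), ?_⟩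
      rintro ⟨c, hc, he⟩
      have h2 := hY hy
      rw [hg (hC hc) h2.1 he] at hc
      exact h2.2 hc)
    rw [← image_union, ← hr C hC, ← hr (Y ∪ C) (union_subset (hY.trans sdiff_subset) hC)] at r2
    omega
  refine ⟨g '' C, (image_mono hC).trans hgE, fun a b => g (x a b), fun a b => by rw [hx.symm],
    hmem, ?_, ?_⟩
  · intro m
    rw [image_P, key _ (hx.P_sub m), hx.base m]
  · intro m
    rw [image_L, key _ (hx.L_sub m)]
    exact hx.line m

lemma sum_finite (M : Matroid α) (N : Matroid β) [M.Finite] [N.Finite] : (M.sum N).Finite := by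
  constructor
  rw [sum_ground]
  exact (M.ground_finite.image _).union (N.ground_finite.image _)

/-- Ranks in direct sums. -/
lemma rk_sum (M : Matroid α) (N : Matroid β) [M.Finite] [N.Finite] {Y : Set (α ⊕ β)}
    (hY : Y ⊆ (M.sum N).E) :
    rk (M.sum N) Y = rk M (Sum.inl ⁻¹' Y) + rk N (Sum.inr ⁻¹' Y) := by
  have := sum_finite M N
  obtain ⟨I, hI⟩ := (M.sum N).exists_isBasis Y hY
  have h2 := sum_isBasis_iff.1 hI
  have e1 : rk (M.sum N) Y = I.ncard := by
    rw [← rk_indep _ hI.indep]; unfold rk; rw [hI.eRk_eq_eRk]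
  have e2 : rk M (Sum.inl ⁻¹' Y) = (Sum.inl ⁻¹' I).ncard := by
    rw [← rk_indep _ h2.1.indep]; unfold rk; rw [h2.1.eRk_eq_eRk]
  have e3 : rk N (Sum.inr ⁻¹' Y) = (Sum.inr ⁻¹' I).ncard := by
    rw [← rk_indep _ h2.2.indep]; unfold rk; rw [h2.2.eRk_eq_eRk]
  rw [e1, e2, e3]
  have hfin : I.Finite := (M.sum N).ground_finite.subset hI.indep.subset_ground
  have hI2 : I = Sum.inl '' (Sum.inl ⁻¹' I) ∪ Sum.inr '' (Sum.inr ⁻¹' I) := by
    ext z
    rcases z with z | z <;> simp
  conv_lhs => rw [hI2]
  have hd : Disjoint (Sum.inl '' (Sum.inl ⁻¹' I)) (Sum.inr '' (Sum.inr ⁻¹' I)) := by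
    rw [disjoint_left]
    rintro _ ⟨a, _, rfl⟩ ⟨b, _, hb⟩
    simp at hb
  have hf1 : (Sum.inl '' (Sum.inl ⁻¹' I)).Finite :=
    hfin.subset (by rintro _ ⟨a, ha, rfl⟩; exact ha)
  have hf2 : (Sum.inr '' (Sum.inr ⁻¹' I)).Finite :=
    hfin.subset (by rintro _ ⟨a, ha, rfl⟩; exact ha)
  rw [ncard_union_eq hd hf1 hf2, ncard_image_of_injective _ Sum.inl_injective,
    ncard_image_of_injective _ Sum.inr_injective]

lemma Conf.single_rk {N : Matroid α} {x : Fin 4 → Fin 4 → α} [N.Finite] (h : Conf N x) {a b : Fin 4}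
    (hab : a ≠ b) : rk N {x a b} = 1 := by
  obtain ⟨k, l, hD⟩ := exists_D4_of_ne hab
  have e1 := pair_rk h.symm h.base hD.1 hD.2.1 hD.2.2.2.1
  have e2 := rk_insert_le N (x a k) {x a b}
  have e3 := rk_le_ncard N (I := {x a b}) (by simp)
  rw [ncard_singleton] at e3
  rw [pair_comm] at e1
  omega

/-- Direct sums do not create `M(K₄)`-minors. -/
theorem HasK.of_sum {M : Matroid α} {N : Matroid β} [M.Finite] [N.Finite]
    (h : HasK (M.sum N)) : HasK M ∨ HasK N := by
  have hfS := sum_finite M N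
  obtain ⟨C, hC, x, hx⟩ := h
  have hrs : ∀ Y ⊆ ((M.sum N) ／ C).E, rk ((M.sum N) ／ C) Y =
      rk (M ／ (Sum.inl ⁻¹' C)) (Sum.inl ⁻¹' Y) + rk (N ／ (Sum.inr ⁻¹' C)) (Sum.inr ⁻¹' Y) := by
    intro Y hY
    rw [contract_ground] at hY
    have r1 := rk_contract (M.sum N) hC hY
    have hC1 : Sum.inl ⁻¹' C ⊆ M.E := by
      intro z hz
      have := hC hz
      simpa using this
    have hC2 : Sum.inr ⁻¹' C ⊆ N.E := by
      intro z hz
      have := hC hz
      simpa using this
    have r2 := rk_contract M (Y := Sum.inl ⁻¹' Y) hC1 (by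
      intro z hz
      have := hY hz
      simpa using this)
    have r3 := rk_contract N (Y := Sum.inr ⁻¹' Y) hC2 (by
      intro z hz
      have := hY hz
      simpa using this)
    rw [rk_sum M N (union_subset (hY.trans sdiff_subset) hC), rk_sum M N hC, preimage_union,
      preimage_union] at r1
    omega
  -- two points on a line are on the same side
  have hline : ∀ i j k : Fin 4, i ≠ j → i ≠ k → j ≠ k → ∀ u v, x i j = Sum.inl u →
      x i k = Sum.inr v → False := by
    intro i j k h1 h2 h3 u v hu hv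
    obtain ⟨l, hD⟩ := exists_D4_of_ne3 h1 h2 h3
    obtain ⟨-, -, h4, -, h5, h6⟩ := id hD
    have s1 := hx.single_rk h1
    have s2 := hx.single_rk h2
    have hl := hx.line i
    rw [hrs _ (hx.L_sub i), L_eq hD] at hl
    rw [hu, hrs _ (by rw [← hu]; simpa using hx.mem i j h1)] at s1
    rw [hv, hrs _ (by rw [← hv]; simpa using hx.mem i k h2)] at s2
    rcases hw : x i l with w | w
    · have p := pair_rk hx.symm hx.base h1 h4 h5
      rw [hu, hw, hrs _ (by
        rw [← hu, ← hw]; rintro y (rfl | rfl)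
        · exact hx.mem i j h1
        · exact hx.mem i l h4)] at p
      rw [hu, hv, hw] at hl
      have q1 : (Sum.inl ⁻¹' ({Sum.inl u, Sum.inr v, Sum.inl w} : Set (α ⊕ β)) : Set α) = {u, w} := by
        ext z; simp
      have q2 : (Sum.inr ⁻¹' ({Sum.inl u, Sum.inr v, Sum.inl w} : Set (α ⊕ β)) : Set β) = {v} := by
        ext z; simp
      have q3 : (Sum.inl ⁻¹' ({Sum.inl u, Sum.inl w} : Set (α ⊕ β)) : Set α) = {u, w} := by
        ext z; simp
      have q4 : (Sum.inr ⁻¹' ({Sum.inl u, Sum.inl w} : Set (α ⊕ β)) : Set β) = ∅ := by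
        ext z; simp
      have q5 : (Sum.inl ⁻¹' ({Sum.inr v} : Set (α ⊕ β)) : Set α) = ∅ := by
        ext z; simp
      have q6 : (Sum.inr ⁻¹' ({Sum.inr v} : Set (α ⊕ β)) : Set β) = {v} := by
        ext z; simp
      rw [q1, q2] at hl
      rw [q3, q4, rk_empty] at p
      rw [q5, q6, rk_empty] at s2
      omega
    · have p := pair_rk hx.symm hx.base h2 h4 h6
      rw [hv, hw, hrs _ (by
        rw [← hv, ← hw]; rintro y (rfl | rfl)
        · exact hx.mem i k h2
        · exact hx.mem i l h4)] at p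
      rw [hu, hv, hw] at hl
      have q1 : (Sum.inl ⁻¹' ({Sum.inl u, Sum.inr v, Sum.inr w} : Set (α ⊕ β)) : Set α) = {u} := by
        ext z; simp
      have q2 : (Sum.inr ⁻¹' ({Sum.inl u, Sum.inr v, Sum.inr w} : Set (α ⊕ β)) : Set β) = {v, w} := by
        ext z; simp
      have q3 : (Sum.inl ⁻¹' ({Sum.inr v, Sum.inr w} : Set (α ⊕ β)) : Set α) = ∅ := by
        ext z; simp
      have q4 : (Sum.inr ⁻¹' ({Sum.inr v, Sum.inr w} : Set (α ⊕ β)) : Set β) = {v, w} := by
        ext z; simp
      have q5 : (Sum.inl ⁻¹' ({Sum.inl u} : Set (α ⊕ β)) : Set α) = {u} := by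
        ext z; simp
      have q6 : (Sum.inr ⁻¹' ({Sum.inl u} : Set (α ⊕ β)) : Set β) = ∅ := by
        ext z; simp
      rw [q1, q2] at hl
      rw [q3, q4, rk_empty] at p
      rw [q5, q6, rk_empty] at s1
      omega
  have hside : ∀ i j k : Fin 4, i ≠ j → i ≠ k → (x i j).isLeft = (x i k).isLeft := by
    intro i j k h1 h2
    by_cases h3 : j = k
    · rw [h3]
    rcases hu : x i j with u | u <;> rcases hv : x i k with v | v
    · rfl
    · exact (hline i j k h1 h2 h3 u v hu hv).elim
    · exact (hline i k j h2 h1 (Ne.symm h3) v u hv hu).elim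
    · rfl
  have hall : ∀ a b, a ≠ b → (x a b).isLeft = (x 0 1).isLeft := by
    intro a b hab
    have h0 : ∀ c, c ≠ 0 → (x 0 c).isLeft = (x 0 1).isLeft := fun c hc =>
      hside 0 c 1 hc.symm (by decide)
    by_cases ha : a = 0
    · subst ha; exact h0 b hab.symm
    · rw [hside a b 0 hab ha, hx.symm a 0]
      exact h0 a ha
  cases hc : (x 0 1).isLeft with
  | true =>
    left
    have hex : ∀ a b, ∃ u, a ≠ b → x a b = Sum.inl u := by
      intro a b
      by_cases hab : a = b
      · rcases h01 : x 0 1 with u | u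
        · exact ⟨u, fun h => absurd hab h⟩
        · rw [h01] at hc; simp at hc
      · have := hall a b hab
        rw [hc] at this
        rcases h01 : x a b with u | u
        · exact ⟨u, fun _ => rfl⟩
        · rw [h01] at this; simp at this
    choose y hy using hex
    have hPy : ∀ m, Sum.inl ⁻¹' P x m = P y m ∧ (Sum.inr ⁻¹' P x m : Set β) = ∅ := by
      intro m
      constructor
      · ext z
        constructor
        · rintro ⟨a, b, h1, h2, h3, h4⟩
          rw [hy a b h1] at h4
          exact ⟨a, b, h1, h2, h3, Sum.inl_injective h4⟩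
        · rintro ⟨a, b, h1, h2, h3, rfl⟩
          exact ⟨a, b, h1, h2, h3, (hy a b h1).symm⟩
      · rw [eq_empty_iff_forall_notMem]
        rintro z ⟨a, b, h1, h2, h3, h4⟩
        rw [hy a b h1] at h4
        simp at h4
    have hLy : ∀ m, Sum.inl ⁻¹' L x m = L y m ∧ (Sum.inr ⁻¹' L x m : Set β) = ∅ := by
      intro m
      constructor
      · ext z
        constructor
        · rintro ⟨a, h1, h4⟩
          rw [hy m a h1.symm] at h4
          exact ⟨a, h1, Sum.inl_injective h4⟩
        · rintro ⟨a, h1, rfl⟩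
          exact ⟨a, h1, (hy m a h1.symm).symm⟩
      · rw [eq_empty_iff_forall_notMem]
        rintro z ⟨a, h1, h4⟩
        rw [hy m a h1.symm] at h4
        simp at h4
    refine ⟨Sum.inl ⁻¹' C, ?_, fun a b => if a = b then y 0 1 else y a b, ?_⟩
    · intro z hz
      have := hC hz
      simpa using this
    have hPy' : ∀ m, P (fun a b => if a = b then y 0 1 else y a b) m = P y m := by
      intro m
      ext z
      constructor
      · rintro ⟨a, b, h1, h2, h3, h4⟩
        exact ⟨a, b, h1, h2, h3, by simpa [h1] using h4⟩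
      · rintro ⟨a, b, h1, h2, h3, h4⟩
        exact ⟨a, b, h1, h2, h3, by simpa [h1] using h4⟩
    have hLy' : ∀ m, L (fun a b => if a = b then y 0 1 else y a b) m = L y m := by
      intro m
      ext z
      constructor
      · rintro ⟨a, h1, h4⟩
        exact ⟨a, h1, by simpa [h1.symm] using h4⟩
      · rintro ⟨a, h1, h4⟩
        exact ⟨a, h1, by simpa [h1.symm] using h4⟩
    refine ⟨?_, ?_, ?_, ?_⟩
    · intro a b
      by_cases hab : a = b
      · subst hab; rfl
      · have h1 := hx.symm a b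
        rw [hy a b hab, hy b a (Ne.symm hab)] at h1
        simp [hab, Ne.symm hab, Sum.inl_injective h1]
    · intro a b hab
      have h1 := hx.mem a b hab
      rw [hy a b hab, contract_ground] at h1
      simp only [if_neg hab]
      rw [contract_ground]
      simpa using h1
    · intro m
      have h1 := hx.base m
      rw [hrs _ (hx.P_sub m), (hPy m).1, (hPy m).2, rk_empty] at h1
      rw [hPy']
      exact h1
    · intro m
      have h1 := hx.line m
      rw [hrs _ (hx.L_sub m), (hLy m).1, (hLy m).2, rk_empty] at h1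
      rw [hLy']
      exact h1
  | false =>
    right
    have hex : ∀ a b, ∃ u, a ≠ b → x a b = Sum.inr u := by
      intro a b
      by_cases hab : a = b
      · rcases h01 : x 0 1 with u | u
        · rw [h01] at hc; simp at hc
        · exact ⟨u, fun h => absurd hab h⟩
      · have := hall a b hab
        rw [hc] at this
        rcases h01 : x a b with u | u
        · rw [h01] at this; simp at this
        · exact ⟨u, fun _ => rfl⟩
    choose y hy using hex
    have hPy : ∀ m, Sum.inr ⁻¹' P x m = P y m ∧ (Sum.inl ⁻¹' P x m : Set α) = ∅ := by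
      intro m
      constructor
      · ext z
        constructor
        · rintro ⟨a, b, h1, h2, h3, h4⟩
          rw [hy a b h1] at h4
          exact ⟨a, b, h1, h2, h3, Sum.inr_injective h4⟩
        · rintro ⟨a, b, h1, h2, h3, rfl⟩
          exact ⟨a, b, h1, h2, h3, (hy a b h1).symm⟩
      · rw [eq_empty_iff_forall_notMem]
        rintro z ⟨a, b, h1, h2, h3, h4⟩
        rw [hy a b h1] at h4
        simp at h4
    have hLy : ∀ m, Sum.inr ⁻¹' L x m = L y m ∧ (Sum.inl ⁻¹' L x m : Set α) = ∅ := by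
      intro m
      constructor
      · ext z
        constructor
        · rintro ⟨a, h1, h4⟩
          rw [hy m a h1.symm] at h4
          exact ⟨a, h1, Sum.inr_injective h4⟩
        · rintro ⟨a, h1, rfl⟩
          exact ⟨a, h1, (hy m a h1.symm).symm⟩
      · rw [eq_empty_iff_forall_notMem]
        rintro z ⟨a, h1, h4⟩
        rw [hy m a h1.symm] at h4
        simp at h4
    refine ⟨Sum.inr ⁻¹' C, ?_, fun a b => if a = b then y 0 1 else y a b, ?_⟩
    · intro z hz
      have := hC hz
      simpa using this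
    have hPy' : ∀ m, P (fun a b => if a = b then y 0 1 else y a b) m = P y m := by
      intro m
      ext z
      constructor
      · rintro ⟨a, b, h1, h2, h3, h4⟩
        exact ⟨a, b, h1, h2, h3, by simpa [h1] using h4⟩
      · rintro ⟨a, b, h1, h2, h3, h4⟩
        exact ⟨a, b, h1, h2, h3, by simpa [h1] using h4⟩
    have hLy' : ∀ m, L (fun a b => if a = b then y 0 1 else y a b) m = L y m := by
      intro m
      ext z
      constructor
      · rintro ⟨a, h1, h4⟩
        exact ⟨a, h1, by simpa [h1.symm] using h4⟩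
      · rintro ⟨a, h1, h4⟩
        exact ⟨a, h1, by simpa [h1.symm] using h4⟩
    refine ⟨?_, ?_, ?_, ?_⟩
    · intro a b
      by_cases hab : a = b
      · subst hab; rfl
      · have h1 := hx.symm a b
        rw [hy a b hab, hy b a (Ne.symm hab)] at h1
        simp [hab, Ne.symm hab, Sum.inr_injective h1]
    · intro a b hab
      have h1 := hx.mem a b hab
      rw [hy a b hab, contract_ground] at h1
      simp only [if_neg hab]
      rw [contract_ground]
      simpa using h1
    · intro m
      have h1 := hx.base m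
      rw [hrs _ (hx.P_sub m), (hPy m).1, (hPy m).2, rk_empty] at h1
      rw [hPy']
      omega
    · intro m
      have h1 := hx.line m
      rw [hrs _ (hx.L_sub m), (hLy m).1, (hLy m).2, rk_empty] at h1
      rw [hLy']
      omega

end Q163.K4
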