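import Pool.Agent.Q163.K4.Trunc

/-!
# Principal truncations
-/

set_option autoImplicit false

open Set Matroid

namespace Q163.K4

open H211.MC

variable {α : Type*} {M T : Matroid α} {F : Set α}

lemma finite_of_ground_eq [M.Finite] (hE : T.E = M.E) : T.Finite := ⟨by rw [hE]; exact M.ground_finite⟩

/-- Ranks in a principal truncation. -/
lemma rk_trunc [M.Finite] [T.Finite] (hE : T.E = M.E)
    (hT : ∀ I, T.Indep I ↔ M.Indep I ∧ ¬ F ⊆ M.closure I) {Y : Set α} (hY : Y ⊆ M.E) :
    (¬ F ⊆ M.closure Y → rk T Y = rk M Y) ∧ (F ⊆ M.closure Y → rk T Y + 1 = rk M Y) := by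
  obtain ⟨I, hI⟩ := T.exists_isBasis Y (by rw [hE]; exact hY)
  have hIM := (hT I).1 hI.indep
  have e1 : rk T Y = I.ncard := by
    rw [← rk_indep _ hI.indep]; unfold rk; rw [hI.eRk_eq_eRk]
  have e2 : rk M I = I.ncard := rk_indep _ hIM.1
  by_cases hc : Y ⊆ M.closure I
  · have hcl : M.closure Y = M.closure I := subset_antisymm
      (M.closure_subset_closure_of_subset_closure hc) (M.closure_subset_closure hI.subset)
    rw [hcl]
    refine ⟨fun _ => ?_, fun h => absurd h hIM.2⟩
    rw [e1, ← e2, ← rk_closure M Y, hcl, rk_closure]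
  · obtain ⟨y, hyY, hy⟩ := not_subset.1 hc
    have key : ∀ z ∈ Y, z ∉ M.closure I → F ⊆ M.closure (insert z I) := by
      intro z hz hzI
      by_contra hF
      have hind : M.Indep (insert z I) := by
        rw [hIM.1.insert_indep_iff]
        exact Or.inl ⟨hY hz, hzI⟩
      have h2 : T.Indep (insert z I) := (hT _).2 ⟨hind, hF⟩
      have h3 := hI.mem_of_insert_indep hz h2
      exact hzI (M.subset_closure _ hIM.1.subset_ground h3)
    have hFy := key y hyY hy
    obtain ⟨f, hfF, hf⟩ := not_subset.1 hIM.2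
    have hsub : Y ⊆ M.closure (insert y I) := by
      intro z hz
      by_cases hzI : z ∈ M.closure I
      · exact M.closure_subset_closure (subset_insert _ _) hzI
      · have h1 := key z hz hzI hfF
        have h2 := M.mem_closure_insert hf h1
        refine M.closure_subset_closure_of_subset_closure ?_ h2
        rintro w (rfl | hw)
        · exact hFy hfF
        · exact M.subset_closure _ (insert_subset (hY hyY) hIM.1.subset_ground)
            (Or.inr hw)
    have hcl : M.closure Y = M.closure (insert y I) := subset_antisymm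
      (M.closure_subset_closure_of_subset_closure hsub)
      (M.closure_subset_closure (insert_subset hyY hI.subset))
    rw [hcl]
    refine ⟨fun h => absurd hFy h, fun _ => ?_⟩
    rw [e1, ← e2, ← rk_closure M Y, hcl, rk_closure, rk_insert_of_notMem M (hY hyY) hy]

lemma HasK.of_contract {C : Set α} (hC : C ⊆ M.E) (h : HasK (M ／ C)) : HasK M := by
  obtain ⟨C', hC', x, hx⟩ := h
  rw [contract_contract] at hx
  exact ⟨C ∪ C', union_subset hC (hC'.trans sdiff_subset), x, hx⟩

lemma Conf.P_sub {N : Matroid α} {x : Fin 4 → Fin 4 → α} (h : Conf N x) (m : Fin 4) :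
    P x m ⊆ N.E := K4.P_sub h.mem m

lemma Conf.L_sub {N : Matroid α} {x : Fin 4 → Fin 4 → α} (h : Conf N x) (m : Fin 4) :
    L x m ⊆ N.E := K4.L_sub h.mem m

lemma ncard_P_le {x : Fin 4 → Fin 4 → α} (hs : ∀ a b, x a b = x b a) (m : Fin 4) :
    (P x m).ncard ≤ 3 := by
  obtain ⟨j, k, l, h⟩ := exists_D4 m
  have h' : D4 j k l m := by revert h; revert m j k l; decide
  rw [P_eq hs h']
  have e1 := ncard_insert_le (x j k) {x j l, x k l}
  have e2 := ncard_insert_le (x j l) {x k l}
  rw [ncard_singleton] at e2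
  omega

lemma finite_P {x : Fin 4 → Fin 4 → α} (hs : ∀ a b, x a b = x b a) (m : Fin 4) :
    (P x m).Finite := by
  obtain ⟨j, k, l, h⟩ := exists_D4 m
  have h' : D4 j k l m := by revert h; revert m j k l; decide
  rw [P_eq hs h']
  simp

/-- Principal truncations do not create `M(K₄)`-minors. -/
theorem HasK.of_trunc [M.Finite] (hF : F ⊆ M.E) (hE : T.E = M.E)
    (hT : ∀ I, T.Indep I ↔ M.Indep I ∧ ¬ F ⊆ M.closure I) (h : HasK T) : HasK M := by
  have : T.Finite := finite_of_ground_eq hE
  obtain ⟨C, hC, x, hx⟩ := h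
  have hCM : C ⊆ M.E := hE ▸ hC
  apply HasK.of_contract hCM
  have hmem : ∀ a b, a ≠ b → x a b ∈ (M ／ C).E := by
    intro a b hab
    have := hx.mem a b hab
    rw [contract_ground] at this ⊢
    rwa [hE] at this
  have hsub : ∀ Y ⊆ (M ／ C).E, Y ⊆ (T ／ C).E := by
    intro Y hY
    rw [contract_ground] at hY ⊢
    rwa [hE]
  have hrel : ∀ Y ⊆ (M ／ C).E, rk (T ／ C) Y + rk T C = rk T (Y ∪ C) ∧
      rk (M ／ C) Y + rk M C = rk M (Y ∪ C) := by
    intro Y hY
    exact ⟨rk_contract T hC (hsub Y hY), rk_contract M hCM hY⟩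
  have hYC : ∀ Y ⊆ (M ／ C).E, Y ∪ C ⊆ M.E := fun Y hY =>
    union_subset (hY.trans sdiff_subset) hCM
  by_cases hc : F ⊆ M.closure C
  · -- the truncation has no effect
    have heq : ∀ Y ⊆ (M ／ C).E, rk (T ／ C) Y = rk (M ／ C) Y := by
      intro Y hY
      obtain ⟨r1, r2⟩ := hrel Y hY
      have r3 := (rk_trunc hE hT hCM).2 hc
      have r4 := (rk_trunc hE hT (hYC Y hY)).2
        (hc.trans (M.closure_subset_closure subset_union_right))
      omega
    exact HasK.of_conf ⟨hx.symm, hmem,
      fun m => by rw [← heq _ (P_sub hmem m)]; exact hx.base m,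
      fun m => by rw [← heq _ (L_sub hmem m)]; exact hx.line m⟩
  · have hcl : ∀ Y ⊆ (M ／ C).E, (F \ C ⊆ (M ／ C).closure Y ↔ F ⊆ M.closure (Y ∪ C)) := by
      intro Y hY
      rw [contract_closure_eq]
      constructor
      · intro h z hz
        by_cases hzC : z ∈ C
        · exact M.subset_closure _ (hYC Y hY) (Or.inr hzC)
        · exact (h ⟨hz, hzC⟩).1
      · intro h z hz
        exact ⟨h hz.1, hz.2⟩
    have r3 := (rk_trunc hE hT hCM).1 hc
    have hbase : ∀ m, rk (M ／ C) (P x m) = 3 ∧ ¬ F \ C ⊆ (M ／ C).closure (P x m) := by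
      intro m
      obtain ⟨r1, r2⟩ := hrel _ (P_sub hmem m)
      have r5 := hx.base m
      have r6 := rk_le_ncard (M ／ C) (finite_P hx.symm m)
      have r7 := ncard_P_le hx.symm m
      rw [hcl _ (P_sub hmem m)]
      by_cases h1 : F ⊆ M.closure (P x m ∪ C)
      · have r4 := (rk_trunc hE hT (hYC _ (P_sub hmem m))).2 h1
        omega
      · have r4 := (rk_trunc hE hT (hYC _ (P_sub hmem m))).1 h1
        exact ⟨by omega, h1⟩
    refine core (F := F \ C) (x := x) ?_ hx.symm hmem (fun m => (hbase m).1)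
      (fun m => (hbase m).2) ?_
    · intro z hz
      exact ⟨hF hz.1, hz.2⟩
    · intro m
      rw [hcl _ (L_sub hmem m)]
      by_cases h1 : F ⊆ M.closure (L x m ∪ C)
      · exact Or.inr h1
      · left
        obtain ⟨r1, r2⟩ := hrel _ (L_sub hmem m)
        have r5 := hx.line m
        have r4 := (rk_trunc hE hT (hYC _ (L_sub hmem m))).1 h1
        omega

/-- Existence of principal truncations. -/
theorem exists_ptrunc [M.Finite] (hF : F ⊆ M.E) (hF0 : ¬ F ⊆ M.closure ∅) :
    ∃ T : Matroid α, T.E = M.E ∧ ∀ I, T.Indep I ↔ M.Indep I ∧ ¬ F ⊆ M.closure I := by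
  refine ⟨(IndepMatroid.ofFinite M.ground_finite
    (fun I => M.Indep I ∧ ¬ F ⊆ M.closure I) ⟨M.empty_indep, hF0⟩ ?_ ?_ ?_).matroid, rfl,
    fun I => Iff.rfl⟩
  · rintro I J ⟨hJ, hJF⟩ hIJ
    exact ⟨hJ.subset hIJ, fun h => hJF (h.trans (M.closure_subset_closure hIJ))⟩
  · rintro I J ⟨hI, hIF⟩ ⟨hJ, hJF⟩ hlt
    by_contra hcon
    push Not at hcon
    obtain ⟨f, hfF, hf⟩ := not_subset.1 hIF
    have hlt' : I.encard < J.encard := by
      rw [← (M.ground_finite.subset hI.subset_ground).cast_ncard_eq,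
        ← (M.ground_finite.subset hJ.subset_ground).cast_ncard_eq]
      exact_mod_cast hlt
    obtain ⟨e, he, heI⟩ := hI.exists_insert_of_encard_lt hJ hlt'
    have hsub : J ⊆ M.closure (insert f I) := by
      intro j hj
      by_cases hjI : j ∈ M.closure I
      · exact M.closure_subset_closure (subset_insert _ _) hjI
      · have hjI' : j ∉ I := fun h => hjI (M.subset_closure _ hI.subset_ground h)
        have h1 := hcon j hj hjI' (by
          rw [hI.insert_indep_iff]; exact Or.inl ⟨hJ.subset_ground hj, hjI⟩)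
        exact M.mem_closure_insert hf (h1 hfF)
    have hr : rk M (insert f I) ≤ rk M J := by
      rw [rk_insert_of_notMem M (hF hfF) hf, rk_indep M hI, rk_indep M hJ]
      omega
    have hcl := cl_eq hsub hr
    apply hJF
    rw [hcl]
    refine (hcon e he.1 he.2 heI).trans (M.closure_subset_closure_of_subset_closure ?_)
    rintro w (rfl | hw)
    · exact hsub he.1
    · exact M.closure_subset_closure (subset_insert _ _) (M.subset_closure _ hI.subset_ground hw)
  · exact fun I hI => hI.1.subset_ground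

end Q163.K4
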