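import Pool.Agent.Q163.K4.Core

/-!
# The case analysis for principal truncations
-/

set_option autoImplicit false

open Set Matroid

namespace Q163.K4

open H211.MC

variable {α : Type*} {N : Matroid α} {x : Fin 4 → Fin 4 → α} {F : Set α}

lemma rk_L_le [N.Finite] (m : Fin 4) : rk N (L x m) ≤ 3 := by
  obtain ⟨j, k, l, h⟩ := exists_D4 m
  rw [L_eq h]
  have e1 := rk_insert_le N (x m j) {x m k, x m l}
  have e2 := rk_insert_le N (x m k) {x m l}
  have e3 := rk_le_ncard N (I := {x m l}) (by simp)
  rw [ncard_singleton] at e3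
  omega

lemma rk_ins_le [N.Finite] (hP : ∀ m, rk N (L x m) ≤ 2 ∨ F ⊆ N.closure (L x m)) {f : α} (hf : f ∈ F)
    (m : Fin 4) : rk N (insert f (L x m)) ≤ 3 := by
  rcases hP m with h | h
  · have := rk_insert_le N f (L x m)
    omega
  · rw [rk_insert_of_mem N (h hf)]
    exact rk_L_le m

lemma three_bad [N.Finite] (hF : F ⊆ N.E) (hs : ∀ a b, x a b = x b a)
    (hm : ∀ a b, a ≠ b → x a b ∈ N.E) (hP : ∀ m, rk N (P x m) = 3)
    (hPF : ∀ m, ¬ F ⊆ N.closure (P x m)) (hL : ∀ m, rk N (L x m) ≤ 2 ∨ F ⊆ N.closure (L x m))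
    {i j k l : Fin 4} (h : D4 i j k l) (hi : F ⊆ N.closure (L x i)) (hj : F ⊆ N.closure (L x j))
    (hk : F ⊆ N.closure (L x k)) : HasK N := by
  obtain ⟨f, hfF, hfP⟩ := not_subset.1 (hPF l)
  have hfE := hF hfF
  have hf0 : f ∉ N.closure ∅ := fun h0 => hfP (N.closure_subset_closure (empty_subset _) h0)
  have hrf : rk N {f} = 1 := by
    have := rk_insert_of_notMem N hfE hf0
    rw [rk_empty] at this
    simpa using this
  have hFf : F ⊆ N.closure {f} := by
    intro g hg
    by_contra hgf
    have hgE := hF hg
    have hr2 : rk N {g, f} = 2 := by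
      rw [rk_insert_of_notMem N hgE hgf, hrf]
    have key : ∀ a b c d : Fin 4, D4 a b c d → F ⊆ N.closure (L x a) → F ⊆ N.closure (L x b) →
        x a b ∈ N.closure {g, f} := by
      intro a b c d hD ha hb
      by_contra hab
      have h1 : rk N (insert (x a b) {g, f}) = 3 := by
        rw [rk_insert_of_notMem N (hm a b hD.1) hab, hr2]
      have h2 : insert (x a b) {g, f} ⊆ N.closure (L x a) := by
        rintro y (rfl | rfl | rfl)
        · exact N.subset_closure _ (L_sub hm a) (mem_L hD.1)
        · exact ha hg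
        · exact ha hfF
      have h3 : insert (x a b) {g, f} ⊆ N.closure (L x b) := by
        rintro y (rfl | rfl | rfl)
        · rw [hs]
          exact N.subset_closure _ (L_sub hm b) (mem_L hD.1.symm)
        · exact hb hg
        · exact hb hfF
      have e1 := cl_eq h2 (by rw [h1]; exact rk_L_le a)
      have e2 := cl_eq h3 (by rw [h1]; exact rk_L_le b)
      have e3 : P x d ⊆ N.closure (L x a) := by
        refine (P_sub_LL hs hD).trans (union_subset ?_ ?_)
        · exact N.subset_closure _ (L_sub hm a)
        · rw [← e1, e2]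
          exact N.subset_closure _ (L_sub hm b)
      have e4 := cl_eq e3 (by rw [hP]; exact rk_L_le a)
      exact hPF d (by rw [e4]; exact ha)
    have c1 := key i j k l h hi hj
    have c2 := key i k j l h.p2 hi hk
    have c3 := key j k i l h.p1.p2 hj hk
    have c4 : P x l ⊆ N.closure {g, f} := by
      rw [P_eq hs h]
      rintro y (rfl | rfl | rfl)
      · exact c1
      · exact c2
      · exact c3
    have c5 := rk_mono N c4
    rw [hP, rk_closure, hr2] at c5
    omega
  apply conf_contract hfE hs hm hP
  · intro m hmf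
    apply hPF m
    exact hFf.trans (N.closure_subset_closure_of_subset_closure (by simpa using hmf))
  · exact rk_ins_le hL hfF

lemma notMem_pair [N.Finite] (hs : ∀ a b, x a b = x b a)
    (hm : ∀ a b, a ≠ b → x a b ∈ N.E) (hP : ∀ m, rk N (P x m) = 3)
    {i j k l : Fin 4} (h : D4 i j k l) (hj : rk N (L x j) ≤ 2) {f : α} (hfE : f ∈ N.E)
    (hf0 : f ∉ N.closure ∅) (hk : f ∈ N.closure {x k i, x k j})
    (hl : f ∈ N.closure {x l i, x l j}) : f ∉ N.closure {x j k, x j l} := by
  intro hf
  obtain ⟨h1, h2, h3, h4, h5, h6⟩ := id h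
  have hC : N.closure {x j k, x j l} = N.closure (L x j) := by
    apply cl_eq
    · refine Subset.trans ?_ (N.subset_closure _ (L_sub hm j))
      rintro y (rfl | rfl)
      · exact mem_L h4
      · exact mem_L h5
    · rw [pair_rk hs hP h4 h5 h6]; exact hj
  -- membership in the closures of the two points
  have key : ∀ {k l : Fin 4}, D4 i j k l → f ∈ N.closure {x k i, x k j} →
      f ∈ N.closure {x j k, x j l} → N.closure {x j k, x j l} = N.closure (L x j) →
      f ∈ N.closure {x j k} := by
    intro k l h hk hf hC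
    by_contra hc
    obtain ⟨h1, h2, h3, h4, h5, h6⟩ := id h
    have r1 : rk N {x j k} = 1 := by
      have e1 := pair_rk hs hP h4 h5 h6
      have e2 := rk_insert_le N (x j l) {x j k}
      have e3 := rk_le_ncard N (I := {x j k}) (by simp)
      rw [ncard_singleton] at e3
      rw [pair_comm] at e1
      omega
    have r2 : rk N {f, x j k} = 2 := by rw [rk_insert_of_notMem N hfE hc, r1]
    have e1 : N.closure {f, x j k} = N.closure {x j k, x j l} := by
      apply cl_eq
      · rintro y (rfl | rfl)
        · exact hf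
        · refine N.subset_closure _ ?_ (by simp)
          rintro y (rfl | rfl)
          · exact hm _ _ h4
          · exact hm _ _ h5
      · rw [r2, pair_rk hs hP h4 h5 h6]
    have e2 : N.closure {f, x j k} = N.closure {x k i, x k j} := by
      apply cl_eq
      · rintro y (rfl | rfl)
        · exact hk
        · refine N.subset_closure _ ?_ (by simp [hs])
          rintro y (rfl | rfl)
          · exact hm _ _ h2.symm
          · exact hm _ _ h4.symm
      · rw [r2, pair_rk hs hP h2.symm h4.symm h1]
    have e3 : P x l ⊆ N.closure (L x j) := by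
      rw [P_eq hs h, ← hC, ← e1]
      rintro y (rfl | rfl | rfl)
      · rw [e1, hC, hs]
        exact N.subset_closure _ (L_sub hm j) (mem_L h1.symm)
      · rw [e2]
        refine N.subset_closure _ ?_ (by simp [hs])
        rintro y (rfl | rfl)
        · exact hm _ _ h2.symm
        · exact hm _ _ h4.symm
      · rw [e1, hC]
        exact N.subset_closure _ (L_sub hm j) (mem_L h4)
    have e4 := rk_mono N e3
    rw [hP, rk_closure] at e4
    omega
  have c1 := key h hk hf hC
  have c2 := key h.p3 hl (by rwa [pair_comm]) (by rwa [pair_comm])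
  have c3 : x j k ∈ N.closure {f} := by
    have := N.mem_closure_insert (e := f) (f := x j k) (X := ∅) hf0 (by simpa using c1)
    simpa using this
  have c4 : x j k ∈ N.closure {x j l} :=
    N.closure_subset_closure_of_subset_closure (by simpa using c2) c3
  have c5 := pair_rk hs hP h4 h5 h6
  rw [rk_insert_of_mem N c4] at c5
  have e3 := rk_le_ncard N (I := {x j l}) (by simp)
  rw [ncard_singleton] at e3
  omega

lemma two_bad [N.Finite] (hF : F ⊆ N.E) (hs : ∀ a b, x a b = x b a)
    (hm : ∀ a b, a ≠ b → x a b ∈ N.E) (hP : ∀ m, rk N (P x m) = 3)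
    (hPF : ∀ m, ¬ F ⊆ N.closure (P x m)) (hL : ∀ m, rk N (L x m) ≤ 2 ∨ F ⊆ N.closure (L x m))
    {i j k l : Fin 4} (h : D4 i j k l) (hi : rk N (L x i) ≤ 2) (hj : rk N (L x j) ≤ 2)
    (hk : F ⊆ N.closure (L x k)) (hl : F ⊆ N.closure (L x l)) : HasK N := by
  obtain ⟨h1, h2, h3, h4, h5, h6⟩ := id h
  have dj : D4 i k l j := h.p2.p3
  have di : D4 j k l i := h.p1.p2.p3
  -- the plane
  have Li : L x i ⊆ N.closure (P x l) := by
    refine (good_line hs hm hP hi h1 h2 h4).trans (N.closure_subset_closure ?_)
    rw [P_eq hs h]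
    rintro y (rfl | rfl) <;> simp
  have Lj : L x j ⊆ N.closure (P x l) := by
    refine (good_line hs hm hP hj h1.symm h4 h2).trans (N.closure_subset_closure ?_)
    rw [P_eq hs h, hs j i]
    rintro y (rfl | rfl) <;> simp
  have Pk : N.closure (P x k) = N.closure (P x l) := by
    apply cl_eq
    · exact (P_sub_LL hs h.p3).trans (union_subset Li Lj)
    · rw [hP, hP]
  have hkl : x k l ∉ N.closure (P x l) := by
    intro hc
    apply hPF l
    refine hk.trans (N.closure_subset_closure_of_subset_closure ?_)
    rw [L_eq (show D4 k i j l from h.p2.p1.p3.p3)]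
    rintro y (rfl | rfl | rfl)
    · rw [hs]; exact Li (mem_L h2)
    · rw [hs]; exact Lj (mem_L h4)
    · exact hc
  obtain ⟨f, hfF, hfk⟩ : ∃ f ∈ F, f ∉ N.closure {x k l} := by
    by_contra hc
    push Not at hc
    apply hPF i
    refine (show F ⊆ _ from hc).trans (N.closure_subset_closure ?_)
    rw [singleton_subset_iff]
    exact mem_P h6 h2.symm h3.symm
  have hfE := hF hfF
  have hf0 : f ∉ N.closure ∅ := fun h0 => hfk (N.closure_subset_closure (empty_subset _) h0)
  by_cases hf : f ∈ N.closure (P x l)
  · -- replace `x k l` by `f`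
    have fk : f ∈ N.closure {x k i, x k j} := by
      by_contra hc
      apply hkl
      have e1 : f ∈ N.closure (insert (x k l) {x k i, x k j}) := by
        have := hk hfF
        rwa [L_eq (show D4 k l i j from h.kl)] at this
      have e2 := N.mem_closure_insert hc e1
      refine N.closure_subset_closure_of_subset_closure ?_ e2
      rintro y (rfl | rfl | rfl)
      · exact hf
      · rw [hs]; exact Li (mem_L h2)
      · rw [hs]; exact Lj (mem_L h4)
    have fl : f ∈ N.closure {x l i, x l j} := by
      by_contra hc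
      apply hkl
      have e1 : f ∈ N.closure (insert (x l k) {x l i, x l j}) := by
        have := hl hfF
        rwa [L_eq (show D4 l k i j from h.p3.kl)] at this
      have e2 := N.mem_closure_insert hc e1
      rw [hs]
      refine N.closure_subset_closure_of_subset_closure ?_ e2
      rintro y (rfl | rfl | rfl)
      · exact hf
      · rw [hs]; exact Li (mem_L h3)
      · rw [hs]; exact Lj (mem_L h5)
    have nj := notMem_pair hs hm hP h hj hfE hf0 fk fl
    have ni := notMem_pair hs hm hP h.p1 hi hfE hf0 (by rwa [pair_comm]) (by rwa [pair_comm])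
    let x' : Fin 4 → Fin 4 → α := fun a b => if (a = k ∧ b = l) ∨ (a = l ∧ b = k) then f else x a b
    have hx' : ∀ a b, ¬ ((a = k ∧ b = l) ∨ (a = l ∧ b = k)) → x' a b = x a b :=
      fun a b hab => if_neg hab
    have hkl' : x' k l = f := if_pos (Or.inl ⟨rfl, rfl⟩)
    have hlk' : x' l k = f := if_pos (Or.inr ⟨rfl, rfl⟩)
    have hs' : ∀ a b, x' a b = x' b a := by
      intro a b
      by_cases hab : (a = k ∧ b = l) ∨ (a = l ∧ b = k)
      · rcases hab with ⟨rfl, rfl⟩ | ⟨rfl, rfl⟩
        · rw [hkl', hlk']
        · rw [hkl', hlk']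
      · rw [hx' a b hab, hx' b a (by tauto), hs]
    apply HasK.of_conf (x := x')
    refine ⟨hs', ?_, ?_, ?_⟩
    · intro a b hab
      by_cases hc : (a = k ∧ b = l) ∨ (a = l ∧ b = k)
      · show (if _ then f else x a b) ∈ N.E
        rw [if_pos hc]; exact hfE
      · rw [hx' a b hc]; exact hm a b hab
    · intro m
      rcases h.cover m with rfl | rfl | rfl | rfl
      · rw [P_eq hs' di, hkl', hx' _ _ (by simp [h4, h5]), hx' _ _ (by simp [h4, h5])]
        rw [show ({x j k, x j l, f} : Set α) = insert f {x j k, x j l} by ext; simp; tauto]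
        rw [rk_insert_of_notMem N hfE nj, pair_rk hs hP h4 h5 h6]
      · rw [P_eq hs' dj, hkl', hx' _ _ (by simp [h2, h3]), hx' _ _ (by simp [h2, h3])]
        rw [show ({x i k, x i l, f} : Set α) = insert f {x i k, x i l} by ext; simp; tauto]
        rw [rk_insert_of_notMem N hfE ni, pair_rk hs hP h2 h3 h6]
      · rw [P_eq hs' h.p3, hx' _ _ (by simp [h2, h3]), hx' _ _ (by simp [h2, h3]),
          hx' _ _ (by simp [h4, h5]), ← P_eq hs h.p3, hP]
      · rw [P_eq hs' h, hx' _ _ (by simp [h2, h3]), hx' _ _ (by simp [h2, h3]),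
          hx' _ _ (by simp [h4, h5]), ← P_eq hs h, hP]
    · intro m
      rcases h.cover m with rfl | rfl | rfl | rfl
      · rw [L_eq h, hx' _ _ (by simp [h2, h3]), hx' _ _ (by simp [h2, h3]),
          hx' _ _ (by simp [h2, h3]), ← L_eq h]
        exact hi
      · rw [L_eq h.p1, hx' _ _ (by simp [h4, h5]), hx' _ _ (by simp [h4, h5]),
          hx' _ _ (by simp [h4, h5]), ← L_eq h.p1]
        exact hj
      · have d : D4 m l i j := h.kl
        rw [L_eq d, hkl', hx' _ _ (by simp [h3, h6]), hx' _ _ (by simp [h5, h6]),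
          rk_insert_of_mem N fk, pair_rk hs hP h2.symm h4.symm h1]
      · have d : D4 m k i j := h.p3.kl
        rw [L_eq d, hlk', hx' _ _ (by simp [h2, h6.symm]), hx' _ _ (by simp [h4, h6.symm]),
          rk_insert_of_mem N fl, pair_rk hs hP h3.symm h5.symm h1]
  · -- contract `f`
    have key : ∀ {i j k l : Fin 4}, D4 i j k l → rk N (L x i) ≤ 2 → F ⊆ N.closure (L x k) →
        f ∈ N.closure (P x j) → x k l ∉ N.closure (P x l) →
        f ∈ N.closure {x k i, x k l} := by
      intro i j k l h hi hk hfj hkl
      by_contra hc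
      obtain ⟨h1, h2, h3, h4, h5, h6⟩ := id h
      have r1 : rk N (insert f {x k i, x k l}) = 3 := by
        rw [rk_insert_of_notMem N hfE hc, pair_rk hs hP h2.symm h6 h3]
      have e1 : insert f {x k i, x k l} ⊆ N.closure (P x j) := by
        rintro y (rfl | rfl | rfl)
        · exact hfj
        · exact N.subset_closure _ (P_sub hm j) (mem_P h2.symm h4.symm h1)
        · exact N.subset_closure _ (P_sub hm j) (mem_P h6 h4.symm h5.symm)
      have e2 : insert f {x k i, x k l} ⊆ N.closure (L x k) := by
        rintro y (rfl | rfl | rfl)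
        · exact hk hfF
        · exact N.subset_closure _ (L_sub hm k) (mem_L h2.symm)
        · exact N.subset_closure _ (L_sub hm k) (mem_L h6)
      have e3 := cl_eq e1 (by rw [r1, hP])
      have e4 := cl_eq e2 (by rw [r1]; exact rk_L_le k)
      have e5 : L x i ⊆ N.closure (L x k) := by
        refine (good_line hs hm hP hi h2 h3 h6).trans
          (N.closure_subset_closure_of_subset_closure ?_)
        rw [← e4, e3]
        rintro y (rfl | rfl)
        · exact N.subset_closure _ (P_sub hm j) (mem_P h2 h1 h4.symm)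
        · exact N.subset_closure _ (P_sub hm j) (mem_P h3 h1 h5.symm)
      have e6 : P x l ⊆ N.closure (L x k) :=
        (P_sub_LL hs h.p2).trans (union_subset e5 (N.subset_closure _ (L_sub hm k)))
      have e7 := cl_eq e6 (by rw [hP]; exact rk_L_le k)
      apply hkl
      rw [e7]
      exact N.subset_closure _ (L_sub hm k) (mem_L h6)
    have key2 : ∀ {i j : Fin 4}, D4 i j k l → rk N (L x i) ≤ 2 → f ∉ N.closure (P x j) := by
      intro i j h hi hfj
      obtain ⟨h1, h2, h3, h4, h5, h6⟩ := id h
      have c1 := key h hi hk hfj hkl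
      have c2 := key h.p3 hi hl hfj (by rw [hs, Pk]; exact hkl)
      have c3 : x k i ∈ N.closure (insert f {x k l}) := N.mem_closure_insert hfk c1
      have c4 : x k i ∈ N.closure {x l i, x l k} := by
        refine N.closure_subset_closure_of_subset_closure ?_ c3
        rintro y (rfl | rfl)
        · exact c2
        · refine N.subset_closure _ ?_ (by simp [hs])
          rintro y (rfl | rfl)
          · exact hm _ _ h3.symm
          · exact hm _ _ h6.symm
      have c5 := hP j
      rw [P_eq hs (show D4 k l i j from h.kl), hs k l,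
        show ({x l k, x k i, x l i} : Set α) = insert (x k i) {x l i, x l k} by ext; simp; tauto,
        rk_insert_of_mem N c4, pair_rk hs hP h3.symm h6.symm h2] at c5
      omega
    apply conf_contract hfE hs hm hP
    · intro m
      rcases h.cover m with rfl | rfl | rfl | rfl
      · exact key2 h.p1 hj
      · exact key2 h hi
      · rw [Pk]; exact hf
      · exact hf
    · exact rk_ins_le hL hfF

/-- The core of the argument. -/
theorem core [N.Finite] (hF : F ⊆ N.E) (hs : ∀ a b, x a b = x b a)
    (hm : ∀ a b, a ≠ b → x a b ∈ N.E) (hP : ∀ m, rk N (P x m) = 3)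
    (hPF : ∀ m, ¬ F ⊆ N.closure (P x m)) (hL : ∀ m, rk N (L x m) ≤ 2 ∨ F ⊆ N.closure (L x m)) :
    HasK N := by
  by_cases h0 : ∀ m, rk N (L x m) ≤ 2
  · exact HasK.of_conf ⟨hs, hm, hP, h0⟩
  push Not at h0
  obtain ⟨k, hk⟩ := h0
  have hk' : F ⊆ N.closure (L x k) := (hL k).resolve_left (by omega)
  by_cases h1 : ∃ l, l ≠ k ∧ ¬ rk N (L x l) ≤ 2
  · obtain ⟨l, hlk, hl⟩ := h1
    have hl' := (hL l).resolve_left hl
    obtain ⟨i, j, h⟩ := exists_D4_of_ne hlk.symm
    by_cases hi : rk N (L x i) ≤ 2
    · by_cases hj : rk N (L x j) ≤ 2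
      · exact two_bad hF hs hm hP hPF hL h.kl hi hj hk' hl'
      · exact three_bad hF hs hm hP hPF hL (show D4 k l j i from h.p3) hk' hl'
          ((hL j).resolve_left hj)
    · exact three_bad hF hs hm hP hPF hL h hk' hl' ((hL i).resolve_left hi)
  · exfalso
    push Not at h1
    obtain ⟨i, j, l, h⟩ := exists_D4 k
    obtain ⟨a1, a2, a3, a4, a5, a6⟩ := id h
    have gi := h1 i a1.symm
    have gj := h1 j a2.symm
    have gl := h1 l a3.symm
    apply hPF k
    refine hk'.trans (N.closure_subset_closure_of_subset_closure ?_)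
    rw [L_eq h]
    rintro y (rfl | rfl | rfl)
    · rw [hs]
      refine N.closure_subset_closure ?_ (good_line hs hm hP gi a4 a5 a6 (mem_L a1.symm))
      rintro y (rfl | rfl)
      · exact mem_P a4 a1.symm a2.symm
      · exact mem_P a5 a1.symm a3.symm
    · rw [hs]
      refine N.closure_subset_closure ?_ (good_line hs hm hP gj a4.symm a6 a5 (mem_L a2.symm))
      rintro y (rfl | rfl)
      · exact mem_P a4.symm a2.symm a1.symm
      · exact mem_P a6 a2.symm a3.symm
    · rw [hs]
      refine N.closure_subset_closure ?_ (good_line hs hm hP gl a5.symm a6.symm a4 (mem_L a3.symm))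
      rintro y (rfl | rfl)
      · exact mem_P a5.symm a3.symm a1.symm
      · exact mem_P a6.symm a3.symm a2.symm

end Q163.K4
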